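import Pool.Agent.H439.FQ.Med
import Pool.Agent.H439.QD.Tail

/-!
# The family of the quadratic characters
-/

set_option autoImplicit false

namespace Pool.Agent.H439.FQ

open Finset Complex ComplexConjugate Filter Topology Pool.Agent.H439.LS Pool.Agent.H439.FA
  Pool.Agent.H439.QD Pool.Agent.H439.SP Pool.Agent.A856.QF

/-- the small primes -/
lemma small_ms {Y : ℕ} (hY : 2 ≤ Y) {c : ℕ → ℂ} (hc : ∀ p : ℕ, p.Prime → ‖c p‖ ≤ 1) {ε : ℝ}
    (hε : 0 ≤ ε) {z : ℕ} {S : Finset ℕ} (hS : ∀ p ∈ S, p.Prime ∧ Y < p ∧ p ≤ z) (x : ℕ) :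
    ∑ d ∈ IX x, ‖∑ p ∈ S, c p * (((kr d p : ℤ) : ℂ) * (wt ε p : ℂ))‖ ^ 2 ≤
      (2 * x + 1) * (32 / Real.sqrt Y) + (z : ℝ) ^ 4 := by
  have h0 : ∀ d : ℤ, ∑ p ∈ S, c p * (((kr d p : ℤ) : ℂ) * (wt ε p : ℂ)) =
      ∑ p ∈ S, (c p * (wt ε p : ℂ)) * ((kr d p : ℤ) : ℂ) := by
    intro d
    apply sum_congr rfl
    intro p _
    ring
  simp_rw [h0]
  refine (mean_sq_int S (fun p hp => ⟨(hS p hp).1, by have := (hS p hp).2.1; omega⟩) _ x).trans ?_
  have hb : ∀ p ∈ S, ‖c p * (wt ε p : ℂ)‖ ≤ wt ε p := by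
    intro p hp
    rw [norm_mul, Complex.norm_real, Real.norm_of_nonneg (wt_nonneg _ _)]
    exact mul_le_of_le_one_left (wt_nonneg _ _) (hc p (hS p hp).1)
  apply add_le_add
  · apply mul_le_mul_of_nonneg_left _ (by positivity)
    refine le_trans (sum_le_sum fun p hp => pow_le_pow_left₀ (norm_nonneg _) (hb p hp) 2) ?_
    exact sum_wt_sq (by omega) hε S fun n hn => (hS n hn).2.1
  · have h1 : ∑ p ∈ S, (p : ℝ) * ‖c p * (wt ε p : ℂ)‖ ≤ (z : ℝ) ^ 2 := by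
      have h2 : ∀ p ∈ S, (p : ℝ) * ‖c p * (wt ε p : ℂ)‖ ≤ z := by
        intro p hp
        have hpp := (hS p hp).1
        have hp0 : (0 : ℝ) < p := by exact_mod_cast hpp.pos
        calc (p : ℝ) * ‖c p * (wt ε p : ℂ)‖ ≤ p * (Real.log p / p) :=
              mul_le_mul_of_nonneg_left ((hb p hp).trans (wt_le hε hpp.pos)) hp0.le
          _ = Real.log p := by field_simp
          _ ≤ p := (Real.log_le_self hp0.le)
          _ ≤ z := by exact_mod_cast (hS p hp).2.2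
      refine (sum_le_sum h2).trans ?_
      rw [sum_const, nsmul_eq_mul]
      have h3 : (S.card : ℝ) ≤ z := by
        have h4 : S ⊆ Ioc 0 z := by
          intro p hp
          rw [mem_Ioc]
          exact ⟨(hS p hp).1.pos, (hS p hp).2.2⟩
        have := card_le_card h4
        rw [Nat.card_Ioc, Nat.sub_zero] at this
        exact_mod_cast this
      nlinarith [Nat.cast_nonneg (α := ℝ) z]
    have h2 := pow_le_pow_left₀ (sum_nonneg fun p _ => by positivity) h1 2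
    refine h2.trans (le_of_eq ?_)
    ring

/-- sums over the family and over an index set -/
lemma sum_fam (x : ℕ) : ∃ (q : Fin (SF x).card → ℕ) (χ : ∀ j, DirichletCharacter ℂ (q j)),
    (∀ j, 0 < q j) ∧ (∀ j, q j ≤ 4 * x) ∧ (∀ j k, j ≠ k → ¬ Agree (χ j) (χ k)) ∧
    ∀ (c : ℕ → ℂ) (ε : ℝ) (S : Finset ℕ), (∀ p ∈ S, p.Prime ∧ p ≠ 2) →
      ∑ d ∈ SF x, ‖∑ p ∈ S, c p * (((kr d p : ℤ) : ℂ) * (wt ε p : ℂ))‖ ^ 2 =
        ∑ j, ‖∑ p ∈ S, c p * (χ j p * (wt ε p : ℂ))‖ ^ 2 := by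
  classical
  set e := (SF x).equivFin with he
  have hmem : ∀ j : Fin (SF x).card, ((e.symm j : SF x) : ℤ) ∈ SF x := fun j => (e.symm j).2
  have hsq : ∀ j : Fin (SF x).card, Squarefree ((e.symm j : SF x) : ℤ) := fun j =>
    (mem_filter.1 (hmem j)).2.1
  have hne : ∀ j : Fin (SF x).card, ((e.symm j : SF x) : ℤ) ≠ 0 := fun j => (hsq j).ne_zero
  refine ⟨fun j => 4 * ((e.symm j : SF x) : ℤ).natAbs,
    fun j => kchar ((e.symm j : SF x) : ℤ) (hne j), fun j => ?_, fun j => ?_, fun j k hjk => ?_,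
    fun c ε S hS => ?_⟩
  · have := Int.natAbs_pos.2 (hne j)
    positivity
  · have h4 := mem_IX.1 (mem_filter.1 (hmem j)).1
    have h5 : ((e.symm j : SF x) : ℤ).natAbs ≤ x := by omega
    exact Nat.mul_le_mul_left 4 h5
  · have hne' : ((e.symm j : SF x) : ℤ) ≠ ((e.symm k : SF x) : ℤ) := by
      intro h0
      exact hjk (e.symm.injective (Subtype.ext h0))
    exact not_agree (hsq j) (hsq k) hne'
  · rw [← sum_coe_sort (SF x), ← Equiv.sum_comp e.symm]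
    apply sum_congr rfl
    intro j _
    congr 2
    apply sum_congr rfl
    intro p hp
    rw [kchar_prime (hne j) (hS p hp).1 (hS p hp).2]

/-- **The mean square over the quadratic characters.** -/
theorem fin_q {Y : ℕ} (hY : 2 ≤ Y) : ∃ X₀ : ℕ, ∀ x : ℕ, X₀ ≤ x → ∀ ε : ℝ, 0 < ε → ε ≤ 1 / 2 →
    ∀ c : ℕ → ℂ, (∀ p : ℕ, p.Prime → ‖c p‖ ≤ 1) → ∀ S : Finset ℕ, (∀ p ∈ S, p.Prime ∧ Y < p) →
      ∑ d ∈ SF x, ‖∑ p ∈ S, c p * (((kr d p : ℤ) : ℂ) * (wt ε p : ℂ))‖ ^ 2 ≤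
        (SF x).card * (300 / Real.sqrt Y) + 12 * CT / ε ^ 2 := by
  classical
  have hl2 : 0 < Real.log 2 := Real.log_pos (by norm_num)
  have hl2a := Real.log_two_gt_d9
  have hl2b := Real.log_two_lt_d9
  have hCT := CT_pos
  have hY0 : (0 : ℝ) < Y := by exact_mod_cast (by omega : 0 < Y)
  have hsY : 0 < Real.sqrt Y := Real.sqrt_pos.2 hY0
  have hlog : Tendsto (fun x : ℕ => Real.log (4 * (x : ℝ))) atTop atTop := by
    apply Real.tendsto_log_atTop.comp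
    exact (tendsto_natCast_atTop_atTop).const_mul_atTop (by norm_num)
  obtain ⟨X₀, hX₀⟩ := eventually_atTop.1 ((hlog.eventually ((med_ms (η := 1 / Real.sqrt Y)
    (by positivity)).and ((ev_pow (64 * Real.sqrt Y) (b := 1) one_pos 480).and
      ((ev_pow (4 * Real.sqrt Y) (b := 1 / 4) (by norm_num) 0).and
        ((ev_pow ((60000 : ℝ) ^ 40) (b := 40) (by norm_num) 0).and
          (eventually_ge_atTop (16 : ℝ))))))).and ((card_SF_ge).and (eventually_ge_atTop 4)))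
  refine ⟨X₀, fun x hx ε hε hε1 c hc S hS => ?_⟩
  obtain ⟨⟨hmed, hev1, hev2, hev3, hℓ16⟩, hSF, hx4⟩ := hX₀ x hx
  set ℓ : ℝ := Real.log (4 * (x : ℝ)) with hℓ
  have hx0 : (0 : ℝ) < x := by exact_mod_cast (by omega : 0 < x)
  have hexp : Real.exp ℓ = 4 * x := Real.exp_log (by positivity)
  have hℓ0 : 0 < ℓ := by linarith
  rw [pow_zero, mul_one] at hev2 hev3
  rw [one_mul, hexp] at hev1
  have hx4' : (4 : ℝ) ≤ x := by exact_mod_cast hx4
  -- the exponents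
  set m₀ : ℕ := ⌈120 * Real.log ℓ / Real.log 2⌉₊ with hm₀
  have hlogℓ : 0 ≤ Real.log ℓ := Real.log_nonneg (by linarith)
  have hm₀1 : 120 * Real.log ℓ ≤ m₀ * Real.log 2 := by
    have := Nat.le_ceil (120 * Real.log ℓ / Real.log 2)
    rwa [div_le_iff₀ hl2] at this
  have hm₀2 : (2 : ℝ) ^ m₀ ≤ 2 * ℓ ^ 120 := by
    have h1 := Nat.ceil_lt_add_one (a := 120 * Real.log ℓ / Real.log 2) (by positivity)
    have h2 : (m₀ : ℝ) * Real.log 2 ≤ 120 * Real.log ℓ + Real.log 2 := by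
      have h3 : (m₀ : ℝ) ≤ 120 * Real.log ℓ / Real.log 2 + 1 := h1.le
      have h4 := mul_le_mul_of_nonneg_right h3 hl2.le
      have e : (120 * Real.log ℓ / Real.log 2 + 1) * Real.log 2 =
          120 * Real.log ℓ + Real.log 2 := by field_simp
      rwa [e] at h4
    have h5 := Real.exp_le_exp.2 h2
    rw [Real.exp_add, Real.exp_log (by norm_num : (0 : ℝ) < 2)] at h5
    have e1 : Real.exp ((m₀ : ℝ) * Real.log 2) = 2 ^ m₀ := by
      rw [Real.exp_nat_mul, Real.exp_log (by norm_num)]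
    have e2 : Real.exp (120 * Real.log ℓ) = ℓ ^ 120 := by
      have := Real.exp_nat_mul (Real.log ℓ) 120
      push_cast at this
      rw [this, Real.exp_log hℓ0]
    rw [e1, e2] at h5
    linarith
  set n : ℕ := ⌈40 * ℓ / Real.log 2⌉₊ with hn
  have hn1 : 40 * ℓ ≤ n * Real.log 2 := by
    have := Nat.le_ceil (40 * ℓ / Real.log 2)
    rwa [div_le_iff₀ hl2] at this
  have hn2 : (n : ℝ) * Real.log 2 ≤ 42 * ℓ := by
    have h1 := Nat.ceil_lt_add_one (a := 40 * ℓ / Real.log 2) (by positivity)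
    have h3 : (n : ℝ) ≤ 40 * ℓ / Real.log 2 + 1 := h1.le
    have h4 := mul_le_mul_of_nonneg_right h3 hl2.le
    have e : (40 * ℓ / Real.log 2 + 1) * Real.log 2 = 40 * ℓ + Real.log 2 := by field_simp
    rw [e] at h4
    linarith
  have hn3 : Real.exp (40 * ℓ) ≤ 2 ^ n := by
    have := Real.exp_le_exp.2 hn1
    rwa [Real.exp_nat_mul (Real.log 2) n, Real.exp_log (by norm_num)] at this
  have hn4 : 2 ≤ n := by
    have h1 : (2 : ℝ) ≤ n := by
      by_contra hcon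
      rw [not_le] at hcon
      nlinarith
    exact_mod_cast h1
  -- the splitting
  set S₁ := S.filter fun p => p ≤ 2 ^ m₀ with hS₁
  set S₂ := S.filter fun p => 2 ^ m₀ < p ∧ p ≤ 2 ^ n with hS₂
  set S₃ := S.filter fun p => 2 ^ m₀ < p ∧ 2 ^ n < p with hS₃
  have hsplit : ∀ f : ℕ → ℂ, ∑ p ∈ S, f p = ∑ p ∈ S₁, f p + ∑ p ∈ S₂, f p + ∑ p ∈ S₃, f p := by
    intro f
    rw [hS₁, hS₂, hS₃, ← sum_filter_add_sum_filter_not S (fun p => p ≤ 2 ^ m₀), add_assoc]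
    congr 1
    rw [← sum_filter_add_sum_filter_not (S.filter fun p => ¬ p ≤ 2 ^ m₀) (fun p => p ≤ 2 ^ n),
      filter_filter, filter_filter]
    congr 1
    · apply sum_congr _ fun _ _ => rfl
      apply filter_congr
      intro p _
      rw [not_le]
    · apply sum_congr _ fun _ _ => rfl
      apply filter_congr
      intro p _
      rw [not_le, not_le]
  obtain ⟨q, χ, hq0, hq4, hag, hfam⟩ := sum_fam x
  have hq : ∀ j, (q j : ℝ) ≤ 4 * x := fun j => by exact_mod_cast hq4 j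
  have hp2 : ∀ p ∈ S, p.Prime ∧ p ≠ 2 := fun p hp => ⟨(hS p hp).1, by have := (hS p hp).2; omega⟩
  have hxs : (x : ℝ) / Real.sqrt Y ≤ (SF x).card / Real.sqrt Y :=
    div_le_div_of_nonneg_right hSF hsY.le
  have b1 : ∑ d ∈ SF x, ‖∑ p ∈ S₁, c p * (((kr d p : ℤ) : ℂ) * (wt ε p : ℂ))‖ ^ 2 ≤
      97 * ((SF x).card / Real.sqrt Y) := by
    have h1 := small_ms hY hc hε.le (z := 2 ^ m₀) (S := S₁) (fun p hp => by
      rw [hS₁, mem_filter] at hp
      exact ⟨(hS p hp.1).1, (hS p hp.1).2, hp.2⟩) x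
    have h2 : ∑ d ∈ SF x, ‖∑ p ∈ S₁, c p * (((kr d p : ℤ) : ℂ) * (wt ε p : ℂ))‖ ^ 2 ≤
        ∑ d ∈ IX x, ‖∑ p ∈ S₁, c p * (((kr d p : ℤ) : ℂ) * (wt ε p : ℂ))‖ ^ 2 :=
      sum_le_sum_of_subset_of_nonneg (filter_subset _ _) fun _ _ _ => by positivity
    refine h2.trans (h1.trans ?_)
    have h3 : (((2 ^ m₀ : ℕ) : ℝ)) ^ 4 ≤ x / Real.sqrt Y := by
      push_cast
      have h4 : ((2 : ℝ) ^ m₀) ^ 4 ≤ (2 * ℓ ^ 120) ^ 4 := pow_le_pow_left₀ (by positivity) hm₀2 4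
      refine h4.trans ?_
      rw [le_div_iff₀ hsY]
      have e : (2 * ℓ ^ 120) ^ 4 = 16 * ℓ ^ 480 := by ring
      rw [e]
      nlinarith
    have h5 : (2 * (x : ℝ) + 1) * (32 / Real.sqrt Y) ≤ 96 * (x / Real.sqrt Y) := by
      rw [mul_div_assoc', mul_div_assoc']
      apply div_le_div_of_nonneg_right _ hsY.le
      linarith
    linarith
  have b2 : ∑ d ∈ SF x, ‖∑ p ∈ S₂, c p * (((kr d p : ℤ) : ℂ) * (wt ε p : ℂ))‖ ^ 2 ≤
      2 * ((SF x).card / Real.sqrt Y) := by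
    rw [hfam c ε S₂ fun p hp => hp2 p (mem_filter.1 hp).1]
    have h1 := hmed (SF x).card q χ hq0 hag (fun j => by rw [hexp]; exact hq j) c hc ε hε m₀ n
      hm₀1 hn2 S₂ (fun p hp => by
        rw [hS₂, mem_filter] at hp
        exact ⟨(hS p hp.1).1, hp.2.1, hp.2.2⟩)
    refine h1.trans ?_
    have h2 : Real.exp (3 * ℓ / 4) ≤ x / Real.sqrt Y := by
      rw [le_div_iff₀ hsY]
      have h3 : Real.exp (3 * ℓ / 4) * Real.exp (1 / 4 * ℓ) = 4 * x := by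
        rw [← Real.exp_add, ← hexp]
        congr 1
        ring
      have h4 := mul_le_mul_of_nonneg_left hev2 (Real.exp_nonneg (3 * ℓ / 4))
      rw [h3] at h4
      linarith
    have e : 1 / Real.sqrt Y * ((SF x).card : ℝ) = (SF x).card / Real.sqrt Y := by ring
    rw [e]
    linarith
  have b3 : ∑ d ∈ SF x, ‖∑ p ∈ S₃, c p * (((kr d p : ℤ) : ℂ) * (wt ε p : ℂ))‖ ^ 2 ≤
      4 * CT / ε ^ 2 := by
    rw [hfam c ε S₃ fun p hp => hp2 p (mem_filter.1 hp).1]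
    have h16 : (16 : ℝ) ≤ 4 * x := by linarith
    apply large_ms hq0 hag h16 hq hn4 _ _ hc hε hε1
    · intro p hp
      rw [hS₃, mem_filter] at hp
      exact ⟨(hS p hp.1).1, hp.2.2⟩
    · exact hev3.trans hn3
    · rw [← hexp, ← Real.exp_nat_mul]
      exact_mod_cast hn3
  have hpt : ∀ d ∈ SF x, ‖∑ p ∈ S, c p * (((kr d p : ℤ) : ℂ) * (wt ε p : ℂ))‖ ^ 2 ≤
      3 * ‖∑ p ∈ S₁, c p * (((kr d p : ℤ) : ℂ) * (wt ε p : ℂ))‖ ^ 2 +
      3 * ‖∑ p ∈ S₂, c p * (((kr d p : ℤ) : ℂ) * (wt ε p : ℂ))‖ ^ 2 +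
      3 * ‖∑ p ∈ S₃, c p * (((kr d p : ℤ) : ℂ) * (wt ε p : ℂ))‖ ^ 2 := by
    intro d _
    rw [hsplit]
    set A := ∑ p ∈ S₁, c p * (((kr d p : ℤ) : ℂ) * (wt ε p : ℂ))
    set B := ∑ p ∈ S₂, c p * (((kr d p : ℤ) : ℂ) * (wt ε p : ℂ))
    set C := ∑ p ∈ S₃, c p * (((kr d p : ℤ) : ℂ) * (wt ε p : ℂ))
    have h1 : ‖A + B + C‖ ≤ ‖A‖ + ‖B‖ + ‖C‖ := norm_add₃_le
    have h2 := pow_le_pow_left₀ (norm_nonneg _) h1 2
    nlinarith [sq_nonneg (‖A‖ - ‖B‖), sq_nonneg (‖A‖ - ‖C‖), sq_nonneg (‖B‖ - ‖C‖)]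
  refine (sum_le_sum hpt).trans ?_
  rw [sum_add_distrib, sum_add_distrib, ← mul_sum, ← mul_sum, ← mul_sum]
  have e1 : ((SF x).card : ℝ) * (300 / Real.sqrt Y) = 300 * ((SF x).card / Real.sqrt Y) := by ring
  have e2 : 12 * CT / ε ^ 2 = 3 * (4 * CT / ε ^ 2) := by ring
  rw [e1, e2]
  have h0 : 0 ≤ ((SF x).card : ℝ) / Real.sqrt Y := by positivity
  linarith

end Pool.Agent.H439.FQ
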