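import Pool.Agent.H439.FA.Final

/-!
# Random series over the primes of a number field, general case
-/

set_option autoImplicit false
set_option linter.unusedSectionVars false

namespace Pool.Agent.H439.FQ

open Finset Complex ComplexConjugate Filter Topology MeasureTheory NumberField IsDedekindDomain
  Pool.Agent.TH339.MP Pool.Agent.H439.LS Pool.Agent.H439.LL Pool.Agent.H439.FA

/-- random functions with orthogonal values at the primes -/
structure Rnd {Ω : Type} [MeasurableSpace Ω] (μ : Measure Ω) (g : Ω → ℕ → ℂ) : Prop where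
  pm : ∀ ω, PM (g ω)
  meas : ∀ p : ℕ, p.Prime → Measurable fun ω => g ω p
  ms : ∀ (T : Finset ℕ), (∀ p ∈ T, p.Prime) → ∀ b : ℕ → ℂ,
    ∫ ω, ‖∑ p ∈ T, b p * g ω p‖ ^ 2 ∂μ ≤ ∑ p ∈ T, ‖b p‖ ^ 2

section
variable {K : Type} [Field K] [NumberField K] {r : ℕ}
variable {Ω : Type} [MeasurableSpace Ω] {μ : Measure Ω} [IsProbabilityMeasure μ] {g : Ω → ℕ → ℂ}

lemma meas_ft (hg : Rnd μ g) (a : HeightOneSpectrum (𝓞 K) → ℂ) (ε : ℝ)
    (v : HeightOneSpectrum (𝓞 K)) : Measurable fun ω => ft a (g ω) ε v := by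
  unfold ft
  have e : ∀ ω, g ω (nm v) = g ω (pr v : Nat.Primes) ^ dg v := by
    intro ω
    rw [nm_eq, (hg.pm ω).pow _ (pr v).2]
  simp_rw [e]
  exact (((hg.meas _ (pr v).2).pow_const _).mul_const _).const_mul _

/-- the mean square of a finite part of the tail -/
lemma fin_g (hg : Rnd μ g) {ε : ℝ} (hε : 0 ≤ ε)
    {a : HeightOneSpectrum (𝓞 K) → ℂ} {M : ℝ} (hM : 0 ≤ M) (ha : ∀ v, ‖a v‖ ≤ M) {Y : ℕ}
    (hY : 1 ≤ Y) (T : Finset (HeightOneSpectrum (𝓞 K))) (hT : ∀ v ∈ T, Y < nm v) :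
    ∫ ω, ‖∑ v ∈ T, ft a (g ω) ε v‖ ^ 2 ∂μ ≤ dl ((Module.finrank ℚ K : ℝ) * M) Y := by
  classical
  obtain ⟨S, hS, hred⟩ := reduce hM ha hY T hT
  set m : ℝ := (Module.finrank ℚ K : ℝ) * M with hm
  set c := cT a T with hc
  have hnc : ∀ p : ℕ, p.Prime → ‖c p‖ ≤ m := fun p hp => norm_cT hM ha T hp
  have hm0 : 0 ≤ m := (norm_nonneg _).trans (hnc 2 Nat.prime_two)
  set b : ℕ → ℂ := fun p => c p * (FA.wt ε p : ℂ) with hb
  have hsum : ∀ ω, ∑ p ∈ S, c p * (g ω p * (FA.wt ε p : ℂ)) = ∑ p ∈ S, b p * g ω p := by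
    intro ω
    apply sum_congr rfl
    intro p _
    simp only [hb]
    ring
  have h1 := hg.ms S (fun p hp => (hS p hp).1) b
  have h2 : ∑ p ∈ S, ‖b p‖ ^ 2 ≤ m ^ 2 * (32 / Real.sqrt Y) := by
    have h3 : ∀ p ∈ S, ‖b p‖ ^ 2 ≤ m ^ 2 * FA.wt ε p ^ 2 := by
      intro p hp
      simp only [hb]
      rw [norm_mul, Complex.norm_real, Real.norm_of_nonneg (FA.wt_nonneg _ _), ← mul_pow]
      apply pow_le_pow_left₀ (mul_nonneg (norm_nonneg _) (FA.wt_nonneg _ _))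
      exact mul_le_mul_of_nonneg_right (hnc p (hS p hp).1) (FA.wt_nonneg _ _)
    refine (sum_le_sum h3).trans ?_
    rw [← mul_sum]
    apply mul_le_mul_of_nonneg_left _ (by positivity)
    exact sum_wt_sq hY hε S fun n hn => (hS n hn).2
  set R : ℝ := 8 * m * c₂ * (Y : ℝ) ^ (-(1 / 8 : ℝ)) with hR
  have hR0 : 0 ≤ R := by have := c₂_nonneg; positivity
  have hm1 : Measurable fun ω => ∑ p ∈ S, b p * g ω p := by
    apply Finset.measurable_sum
    intro p hp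
    exact (hg.meas p (hS p hp).1).const_mul _
  have hm2 : Measurable fun ω => ∑ v ∈ T, ft a (g ω) ε v :=
    Finset.measurable_sum _ fun v _ => meas_ft hg a ε v
  have hi1 : Integrable (fun ω => ‖∑ p ∈ S, b p * g ω p‖ ^ 2) μ := by
    refine Integrable.of_bound (hm1.norm.pow_const 2).aestronglyMeasurable
      ((∑ p ∈ S, ‖b p‖) ^ 2) (Eventually.of_forall fun ω => ?_)
    rw [norm_pow, norm_norm]
    apply pow_le_pow_left₀ (norm_nonneg _)
    apply norm_sum_le_of_le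
    intro p hp
    rw [norm_mul]
    exact mul_le_of_le_one_right (norm_nonneg _) ((hg.pm ω).le p (hS p hp).1)
  have hi2 : Integrable (fun ω => ‖∑ v ∈ T, ft a (g ω) ε v‖ ^ 2) μ := by
    refine Integrable.of_bound (hm2.norm.pow_const 2).aestronglyMeasurable
      ((∑ v ∈ T, M * FA.wt ε (nm v)) ^ 2) (Eventually.of_forall fun ω => ?_)
    rw [norm_pow, norm_norm]
    apply pow_le_pow_left₀ (norm_nonneg _)
    exact norm_sum_le_of_le _ fun v _ => norm_ft ha (hg.pm ω) ε v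
  have h3 : ∫ ω, ‖∑ v ∈ T, ft a (g ω) ε v‖ ^ 2 ∂μ ≤
      ∫ ω, (2 * ‖∑ p ∈ S, b p * g ω p‖ ^ 2 + 2 * R ^ 2) ∂μ := by
    apply integral_mono hi2 ((hi1.const_mul 2).add (integrable_const _))
    intro ω
    have h4 := hred (g ω) ε (hg.pm ω) hε
    rw [hsum] at h4
    change _ ≤ 2 * ‖∑ p ∈ S, b p * g ω p‖ ^ 2 + 2 * R ^ 2
    set A := ∑ v ∈ T, ft a (g ω) ε v with hA
    set B := ∑ p ∈ S, b p * g ω p with hB
    have h5 : ‖A‖ ≤ ‖B‖ + R := by
      have e : A = B + (A - B) := by ring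
      rw [e]
      exact (norm_add_le _ _).trans (by linarith)
    have h6 := pow_le_pow_left₀ (norm_nonneg _) h5 2
    nlinarith [sq_nonneg (‖B‖ - R)]
  refine h3.trans ?_
  rw [integral_add (hi1.const_mul 2) (integrable_const _), integral_const_mul, integral_const]
  have h6 : R ^ 2 = 64 * m ^ 2 * c₂ ^ 2 * (Y : ℝ) ^ (-(1 / 4 : ℝ)) := by
    rw [hR, mul_pow, sq_rpow]
    ring
  have h7 : μ.real Set.univ = 1 := by simp
  rw [h7, one_smul, h6]
  unfold dl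
  have e : m ^ 2 * (3072 / Real.sqrt (Y : ℝ) + 128 * c₂ ^ 2 * (Y : ℝ) ^ (-(1 / 4 : ℝ))) =
      2 * (m ^ 2 * (1536 / Real.sqrt Y)) +
        2 * (64 * m ^ 2 * c₂ ^ 2 * (Y : ℝ) ^ (-(1 / 4 : ℝ))) := by ring
  rw [e]
  have h8 : m ^ 2 * (32 / Real.sqrt (Y : ℝ)) ≤ m ^ 2 * (1536 / Real.sqrt Y) := by
    apply mul_le_mul_of_nonneg_left _ (by positivity)
    apply div_le_div_of_nonneg_right (by norm_num) (Real.sqrt_nonneg _)
  linarith

lemma meas_FYg (hg : Rnd μ g) (a : HeightOneSpectrum (𝓞 K) → ℂ) (ε : ℝ) (Y : ℕ) :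
    Measurable fun ω => FY a (g ω) ε Y := by
  unfold FY
  exact Finset.measurable_sum _ fun v _ => meas_ft hg a ε v

lemma meas_FSg (hg : Rnd μ g) {a : HeightOneSpectrum (𝓞 K) → ℂ} {M : ℝ}
    (ha : ∀ v, ‖a v‖ ≤ M) {ε : ℝ} (hε : 0 < ε) : Measurable fun ω => FS a (g ω) ε := by
  apply measurable_of_tendsto_metrizable (fun N : ℕ => meas_FYg hg a ε N)
  rw [tendsto_pi_nhds]
  intro ω
  exact tendsto_FY ha (hg.pm ω) hε

/-- **The mean square of the tail.** -/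
theorem tail_g (hg : Rnd μ g) {ε : ℝ} (hε : 0 < ε)
    {a : HeightOneSpectrum (𝓞 K) → ℂ} {M : ℝ} (hM : 0 ≤ M) (ha : ∀ v, ‖a v‖ ≤ M) {Y : ℕ}
    (hY : 1 ≤ Y) :
    ∫ ω, ‖FS a (g ω) ε - FY a (g ω) ε Y‖ ^ 2 ∂μ ≤ dl ((Module.finrank ℚ K : ℝ) * M) Y := by
  set B : ℝ := M * ∑' v : HeightOneSpectrum (𝓞 K), FA.wt ε (nm v) with hB
  have h1 : Tendsto (fun N : ℕ => ∫ ω, ‖FY a (g ω) ε N - FY a (g ω) ε Y‖ ^ 2 ∂μ)
      atTop (𝓝 (∫ ω, ‖FS a (g ω) ε - FY a (g ω) ε Y‖ ^ 2 ∂μ)) := by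
    apply tendsto_integral_of_dominated_convergence (fun _ => (B + B) ^ 2)
    · intro N
      exact (((meas_FYg hg a ε N).sub (meas_FYg hg a ε Y)).norm.pow_const 2).aestronglyMeasurable
    · exact integrable_const _
    · intro N
      refine Eventually.of_forall fun ω => ?_
      rw [norm_pow, norm_norm]
      apply pow_le_pow_left₀ (norm_nonneg _)
      exact (norm_sub_le _ _).trans (add_le_add (norm_FY' hM ha (hg.pm ω) hε N)
        (norm_FY' hM ha (hg.pm ω) hε Y))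
    · exact Eventually.of_forall fun ω =>
        (((tendsto_FY ha (hg.pm ω) hε).sub_const _).norm).pow 2
  refine le_of_tendsto h1 ?_
  filter_upwards [eventually_ge_atTop Y] with N hN
  simp_rw [FY_sub a _ ε hN]
  exact fin_g hg hε.le hM ha hY _ fun v hv => lt_of_mem_Vb hv

/-- **The random series on the line.** -/
theorem exists_Zg (hg : Rnd μ g) {a : HeightOneSpectrum (𝓞 K) → ℂ} {M : ℝ} (hM : 0 ≤ M)
    (ha : ∀ v, ‖a v‖ ≤ M) : ∃ Z : Ω → ℂ, Measurable Z ∧ ∀ Y : ℕ, 1 ≤ Y →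
      Integrable (fun ω => ‖Z ω - FY a (g ω) 0 Y‖ ^ 2) μ ∧
      ∫ ω, ‖Z ω - FY a (g ω) 0 Y‖ ^ 2 ∂μ ≤ dl ((Module.finrank ℚ K : ℝ) * M) Y := by
  set m : ℝ := (Module.finrank ℚ K : ℝ) * M with hm
  set f : ℕ → Ω → ℂ := fun N ω => FY a (g ω) 0 N with hf
  have hmem : ∀ N, MemLp (f N) 2 μ := by
    intro N
    refine MemLp.of_bound (meas_FYg hg a 0 N).aestronglyMeasurable (bY K M N)
      (Eventually.of_forall fun ω => norm_FY hM ha (hg.pm ω) le_rfl N)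
  have hsq : ∀ h : Ω → ℂ, MemLp h 2 μ → (eLpNorm h 2 μ).toReal ^ 2 = ∫ ω, ‖h ω‖ ^ 2 ∂μ := by
    intro h hh
    rw [hh.eLpNorm_eq_integral_rpow_norm (by norm_num) (by norm_num)]
    have h0 : 0 ≤ ∫ ω, ‖h ω‖ ^ (2 : ℝ) ∂μ := integral_nonneg fun ω => by positivity
    rw [ENNReal.toReal_ofNat, ENNReal.toReal_ofReal (by positivity), ← Real.rpow_natCast,
      ← Real.rpow_mul h0]
    norm_num
  set F : ℕ → Lp ℂ 2 μ := fun N => (hmem N).toLp (f N) with hF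
  have hdist : ∀ Y N : ℕ, 1 ≤ Y → Y ≤ N → ‖F N - F Y‖ ^ 2 ≤ dl m Y := by
    intro Y N hY hYN
    have h1 : F N - F Y = ((hmem N).sub (hmem Y)).toLp (f N - f Y) := (MemLp.toLp_sub _ _).symm
    rw [h1, Lp.norm_toLp, hsq _ ((hmem N).sub (hmem Y))]
    have h2 : ∀ ω, (f N - f Y) ω = ∑ v ∈ Vb K Y N, ft a (g ω) 0 v := by
      intro ω
      rw [← FY_sub a _ 0 hYN]
      rfl
    simp_rw [h2]
    exact fin_g hg le_rfl hM ha hY _ fun v hv => lt_of_mem_Vb hv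
  have hcau : CauchySeq F := by
    rw [Metric.cauchySeq_iff']
    intro δ hδ
    have h1 := (tendsto_dl m).eventually (gt_mem_nhds (by positivity : 0 < δ ^ 2))
    obtain ⟨Y, hY1, hY2⟩ := (h1.and (eventually_ge_atTop 1)).exists
    refine ⟨Y, fun N hN => ?_⟩
    rw [dist_eq_norm]
    have h2 := hdist Y N hY2 hN
    exact lt_of_pow_lt_pow_left₀ 2 hδ.le (lt_of_le_of_lt h2 hY1)
  obtain ⟨L, hL⟩ := cauchySeq_tendsto_of_complete hcau
  refine ⟨L, (Lp.stronglyMeasurable L).measurable, fun Y hY => ?_⟩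
  have hmemL : MemLp (fun ω => L ω - f Y ω) 2 μ := (Lp.memLp L).sub (hmem Y)
  refine ⟨?_, ?_⟩
  · have := hmemL.integrable_norm_pow (by norm_num : (2 : ℕ) ≠ 0)
    exact this
  · have h1 : ‖L - F Y‖ ^ 2 ≤ dl m Y := by
      have h2 : Tendsto (fun N => ‖F N - F Y‖ ^ 2) atTop (𝓝 (‖L - F Y‖ ^ 2)) :=
        ((hL.sub_const _).norm).pow 2
      refine le_of_tendsto h2 ?_
      filter_upwards [eventually_ge_atTop Y] with N hN
      exact hdist Y N hY hN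
    have h3 : ‖L - F Y‖ = (eLpNorm (fun ω => L ω - f Y ω) 2 μ).toReal := by
      rw [Lp.norm_def]
      congr 1
      apply eLpNorm_congr_ae
      filter_upwards [Lp.coeFn_sub L (F Y), (hmem Y).coeFn_toLp] with ω h4 h5
      rw [h4, Pi.sub_apply, h5]
    rw [h3, hsq _ hmemL] at h1
    exact h1

/-- the random vector: the tail is small in mean square -/
lemma tail_g_vec (hg : Rnd μ g) {ε : ℝ} (hε : 0 < ε)
    {a : Fin r → HeightOneSpectrum (𝓞 K) → ℂ} {M : ℝ} (hM : 0 ≤ M) (ha : ∀ k v, ‖a k v‖ ≤ M)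
    {Y : ℕ} (hY : 1 ≤ Y) :
    Integrable (fun ω => ‖FSV a (g ω) ε - FV a (g ω) ε Y‖ ^ 2) μ ∧
    ∫ ω, ‖FSV a (g ω) ε - FV a (g ω) ε Y‖ ^ 2 ∂μ ≤ r * dl ((Module.finrank ℚ K : ℝ) * M) Y := by
  apply vec_sq (measurable_pi_iff.2 fun k => meas_FSg hg (ha k) hε)
    (measurable_pi_iff.2 fun k => meas_FYg hg (a k) ε Y)
  · intro k
    refine Integrable.of_bound (C := (M * ∑' v : HeightOneSpectrum (𝓞 K), FA.wt ε (nm v) +
      M * ∑' v : HeightOneSpectrum (𝓞 K), FA.wt ε (nm v)) ^ 2) ?_ (Eventually.of_forall fun ω => ?_)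
    · exact (((meas_FSg hg (ha k) hε).sub (meas_FYg hg (a k) ε Y)).norm.pow_const 2).aestronglyMeasurable
    · rw [norm_pow, norm_norm]
      apply pow_le_pow_left₀ (norm_nonneg _)
      exact (norm_sub_le _ _).trans (add_le_add (norm_FS hM (ha k) (hg.pm ω) hε)
        (norm_FY' hM (ha k) (hg.pm ω) hε Y))
  · intro k
    exact tail_g hg hε hM (ha k) hY

end

end Pool.Agent.H439.FQ
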