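import Pool.Agent.H439.FA.TailT
import Pool.Agent.H439.TH.Medium
import Pool.Agent.H439.LS.Taub

/-!
# The blocks of the series over the primes
-/

set_option autoImplicit false

namespace Pool.Agent.H439.FQ

open Finset Complex ComplexConjugate Filter Topology Pool.Agent.H439.LS Pool.Agent.H439.FA
  Pool.Agent.H439.TH Pool.Agent.H439.SP

/-- the coefficients with the weights absorbed -/
noncomputable def ab (c : ℕ → ℂ) (S : Finset ℕ) (ε : ℝ) (p : ℕ) : ℂ :=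
  if p ∈ S then c p * ((((p : ℝ) / 2 ^ (Nat.log 2 p)) ^ (-(1 + ε)) : ℝ) : ℂ) else 0

lemma norm_ab {c : ℕ → ℂ} (hc : ∀ p : ℕ, p.Prime → ‖c p‖ ≤ 1) (S : Finset ℕ) {ε : ℝ} (hε : 0 ≤ ε) :
    ∀ p : ℕ, p.Prime → ‖ab c S ε p‖ ≤ 1 := by
  intro p hp
  unfold ab
  split_ifs
  · have h1 : (1 : ℝ) ≤ (p : ℝ) / 2 ^ (Nat.log 2 p) := by
      rw [le_div_iff₀ (by positivity), one_mul]
      exact_mod_cast Nat.pow_log_le_self 2 hp.pos.ne'
    rw [norm_mul, Complex.norm_real, Real.norm_of_nonneg (by positivity)]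
    have h2 : ((p : ℝ) / 2 ^ (Nat.log 2 p)) ^ (-(1 + ε)) ≤ 1 :=
      Real.rpow_le_one_of_one_le_of_nonpos h1 (by linarith)
    exact mul_le_one₀ (hc p hp) (by positivity) h2
  · simp

lemma log2_of_mem {m p : ℕ} (hm : 1 ≤ m) (hp : p.Prime) (h : p ∈ Ioc (2 ^ m) (2 ^ (m + 1))) :
    Nat.log 2 p = m := by
  rw [mem_Ioc] at h
  rw [Nat.log_eq_iff (Or.inl (by omega))]
  refine ⟨h.1.le, lt_of_le_of_ne h.2 ?_⟩
  intro h0
  rw [h0] at hp
  have := Nat.Prime.eq_one_of_pow hp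
  omega

lemma mem_of_log2 {m p : ℕ} (hm : 2 ≤ m) (hp : p.Prime) (h : Nat.log 2 p = m) :
    p ∈ Ioc (2 ^ m) (2 ^ (m + 1)) := by
  rw [Nat.log_eq_iff (Or.inl (by omega))] at h
  rw [mem_Ioc]
  refine ⟨lt_of_le_of_ne h.1 ?_, h.2.le⟩
  intro h0
  rw [← h0] at hp
  have h1 := (Nat.Prime.eq_one_of_pow hp)
  omega

/-- one block -/
lemma block_eq {q : ℕ} (χ : DirichletCharacter ℂ q) (c : ℕ → ℂ) {S : Finset ℕ}
    (hS : ∀ p ∈ S, p.Prime) {ε : ℝ} {m : ℕ} (hm : 1 ≤ m) :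
    ∑ p ∈ S with p ∈ Ioc (2 ^ m) (2 ^ (m + 1)), c p * (χ p * (wt ε p : ℂ)) =
      ((((2 : ℝ) ^ m) ^ (-(1 + ε)) : ℝ) : ℂ) *
        ∑ p ∈ (Ioc (2 ^ m) (2 ^ (m + 1))).filter Nat.Prime,
          ab c S ε p * Real.log p * (χ p * ph 0 p) := by
  have h1 : ∑ p ∈ (Ioc (2 ^ m) (2 ^ (m + 1))).filter Nat.Prime,
      ab c S ε p * Real.log p * (χ p * ph 0 p) =
      ∑ p ∈ S with p ∈ Ioc (2 ^ m) (2 ^ (m + 1)), ab c S ε p * Real.log p * (χ p * ph 0 p) := by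
    symm
    apply sum_subset_zero_on_sdiff
    · intro p hp
      rw [mem_filter] at hp ⊢
      exact ⟨hp.2, hS p hp.1⟩
    · intro p hp
      rw [Finset.mem_sdiff, mem_filter, mem_filter] at hp
      have h2 : p ∉ S := fun h => hp.2 ⟨h, hp.1.1⟩
      unfold ab
      rw [if_neg h2]
      ring
    · intro p _
      rfl
  rw [h1, mul_sum]
  apply sum_congr rfl
  intro p hp
  rw [mem_filter] at hp
  have hpp := hS p hp.1
  have hp0 : (0 : ℝ) < p := by exact_mod_cast hpp.pos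
  have h2 := log2_of_mem hm hpp hp.2
  have h3 : wt ε p = ((2 : ℝ) ^ m) ^ (-(1 + ε)) * (((p : ℝ) / 2 ^ m) ^ (-(1 + ε)) * Real.log p) := by
    unfold wt
    rw [← mul_assoc, ← Real.mul_rpow (by positivity) (by positivity)]
    rw [show (2 : ℝ) ^ m * (p / 2 ^ m) = p by field_simp]
    ring
  have h4 : ph 0 p = 1 := by
    unfold ph
    simp
  unfold ab
  rw [if_pos hp.1, h2, h3, h4]
  push_cast
  ring

/-- the geometric series -/
lemma geom_le {ε : ℝ} (hε : 0 < ε) (hε1 : ε ≤ 1 / 2) (s : Finset ℕ) :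
    ∑ m ∈ s, ((2 : ℝ) ^ m) ^ (-ε) ≤ 2 / ε := by
  have hl2a := Real.log_two_gt_d9
  have hl2b := Real.log_two_lt_d9
  set x : ℝ := ε * Real.log 2 with hx
  have hx0 : 0 < x := by positivity
  have hx1 : x ≤ 1 := by nlinarith
  set r : ℝ := Real.exp (-x) with hr
  have hr0 : 0 < r := Real.exp_pos _
  have hr1 : ε / 2 ≤ 1 - r := by
    have h2 : r ≤ 1 - x + x ^ 2 / 2 := by
      have h3 := Real.quadratic_le_exp_of_nonneg hx0.le
      have h4 : r * Real.exp x = 1 := by rw [hr, ← Real.exp_add]; simp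
      have h5 : r * (1 + x + x ^ 2 / 2) ≤ 1 := by
        calc r * (1 + x + x ^ 2 / 2) ≤ r * Real.exp x := mul_le_mul_of_nonneg_left h3 hr0.le
          _ = 1 := h4
      have h6 : 1 ≤ (1 - x + x ^ 2 / 2) * (1 + x + x ^ 2 / 2) := by
        have e : (1 - x + x ^ 2 / 2) * (1 + x + x ^ 2 / 2) = 1 + x ^ 4 / 4 := by ring
        rw [e]
        have : 0 ≤ x ^ 4 / 4 := by positivity
        linarith
      have h7 : 0 < 1 + x + x ^ 2 / 2 := by positivity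
      exact le_of_mul_le_mul_right (h5.trans h6) h7
    nlinarith
  have h1 : ∀ m : ℕ, ((2 : ℝ) ^ m) ^ (-ε) = r ^ m := by
    intro m
    rw [hr, ← Real.exp_nat_mul, Real.rpow_def_of_pos (by positivity), Real.log_pow]
    congr 1
    rw [hx]
    ring
  simp_rw [h1]
  have hr1' : r < 1 := by linarith
  have h2 : ∑ m ∈ s, r ^ m ≤ ∑' m : ℕ, r ^ m :=
    (summable_geometric_of_lt_one hr0.le hr1').sum_le_tsum _ fun m _ => by positivity
  rw [tsum_geometric_of_lt_one hr0.le hr1'] at h2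
  refine h2.trans ?_
  rw [inv_eq_one_div, div_le_div_iff₀ (by linarith) hε]
  linarith

/-- **The large primes.** -/
theorem large_ms {J : ℕ} {q : Fin J → ℕ} {χ : ∀ j, DirichletCharacter ℂ (q j)}
    (hq0 : ∀ j, 0 < q j) (hag : ∀ j k, j ≠ k → ¬ Agree (χ j) (χ k)) {R : ℝ} (hR : 16 ≤ R)
    (hq : ∀ j, (q j : ℝ) ≤ R) {n : ℕ} (hn1 : 2 ≤ n) (hn : (60000 : ℝ) ^ 40 ≤ 2 ^ n)
    (hRn : R ^ 40 ≤ 2 ^ n)
    {c : ℕ → ℂ} (hc : ∀ p : ℕ, p.Prime → ‖c p‖ ≤ 1) {ε : ℝ} (hε : 0 < ε) (hε1 : ε ≤ 1 / 2)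
    {S : Finset ℕ} (hS : ∀ p ∈ S, p.Prime ∧ 2 ^ n < p) :
    ∑ j, ‖∑ p ∈ S, c p * (χ j p * (wt ε p : ℂ))‖ ^ 2 ≤ 4 * CT / ε ^ 2 := by
  have hCT := CT_pos
  have hS' : ∀ p ∈ S, p.Prime := fun p hp => (hS p hp).1
  set V : EuclideanSpace ℂ (Fin J) :=
    WithLp.toLp 2 fun j => ∑ p ∈ S, c p * (χ j p * (wt ε p : ℂ)) with hV
  set I : Finset ℕ := S.image (Nat.log 2) with hI
  have hIn : ∀ m ∈ I, n ≤ m := by
    intro m hm
    rw [hI, mem_image] at hm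
    obtain ⟨p, hp, rfl⟩ := hm
    have h1 := hS p hp
    exact (Nat.le_log_iff_pow_le (by norm_num) h1.1.pos.ne').2 h1.2.le
  have hVeq : V = ∑ m ∈ I, ((((2 : ℝ) ^ m) ^ (-(1 + ε)) : ℝ) : ℂ) •
      vec χ (fun _ => 0) (fun p => ab c S ε p * Real.log p) (Ioc (2 ^ m) (2 ^ (m + 1))) := by
    ext j
    rw [WithLp.ofLp_sum, Finset.sum_apply]
    change ∑ p ∈ S, c p * (χ j p * (wt ε p : ℂ)) = _
    rw [← sum_fiberwise_of_maps_to (s := S) (t := I) (g := Nat.log 2)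
      (fun p hp => mem_image_of_mem _ hp)]
    apply sum_congr rfl
    intro m hm
    have hm2 : 2 ≤ m := hn1.trans (hIn m hm)
    have hm1 : 1 ≤ m := by omega
    have h1 := block_eq (χ j) c hS' (ε := ε) hm1
    have h2 : (S.filter fun p => Nat.log 2 p = m) = S.filter fun p => p ∈ Ioc (2 ^ m) (2 ^ (m + 1)) := by
      apply filter_congr
      intro p hp
      exact ⟨mem_of_log2 hm2 (hS' p hp), log2_of_mem hm1 (hS' p hp)⟩
    rw [h2, h1]
    rfl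
  have hnorm : ‖V‖ ≤ Real.sqrt CT * (2 / ε) := by
    rw [hVeq]
    have h1 : ∀ m ∈ I, ‖((((2 : ℝ) ^ m) ^ (-(1 + ε)) : ℝ) : ℂ) •
        vec χ (fun _ => 0) (fun p => ab c S ε p * Real.log p) (Ioc (2 ^ m) (2 ^ (m + 1)))‖ ≤
        Real.sqrt CT * ((2 : ℝ) ^ m) ^ (-ε) := by
      intro m hm
      have hnm := hIn m hm
      have h2m : (2 : ℝ) ^ n ≤ 2 ^ m := pow_le_pow_right₀ (by norm_num) hnm
      have h2m' : (2 : ℝ) ^ m ≤ 2 ^ (m + 1) := pow_le_pow_right₀ (by norm_num) (by omega)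
      have hp0 : (0 : ℝ) < 2 ^ m := by positivity
      rw [norm_smul, Complex.norm_real, Real.norm_of_nonneg (by positivity)]
      have h2 := taub (A := 2 ^ m) (T := 2 ^ (m + 1)) (χ := χ) (t := fun _ => 0)
        (Nat.pow_lt_pow_right (by norm_num) (by omega)) (by push_cast; linarith)
        ⟨hq0, fun j k hjk h => absurd h (hag j k hjk)⟩ hR hq
        (fun j => by rw [abs_zero]; linarith) (by push_cast; linarith) (by
          push_cast
          have e : (2 : ℝ) ^ (m + 1) - 2 ^ m = 2 ^ m := by ring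
          rw [e]
          have e2 : (2 : ℝ) ^ (m + 1) = 2 * 2 ^ m := by ring
          rw [e2]
          exact mul_le_mul_of_nonneg_right (by linarith) hp0.le) one_pos
        (norm_ab hc S hε.le)
      simp only [Nat.cast_pow, Nat.cast_ofNat] at h2
      have e : (2 : ℝ) ^ (m + 1) - 2 ^ m = 2 ^ m := by ring
      rw [e, one_pow, mul_one] at h2
      have h3 : ‖vec χ (fun _ => 0) (fun p => ab c S ε p * Real.log p)
          (Ioc (2 ^ m) (2 ^ (m + 1)))‖ ≤ Real.sqrt CT * 2 ^ m := by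
        have h4 := Real.sqrt_le_sqrt h2
        rwa [Real.sqrt_sq (norm_nonneg _), Real.sqrt_mul hCT.le, Real.sqrt_sq hp0.le] at h4
      calc ((2 : ℝ) ^ m) ^ (-(1 + ε)) * ‖vec χ (fun _ => 0) (fun p => ab c S ε p * Real.log p)
            (Ioc (2 ^ m) (2 ^ (m + 1)))‖ ≤ ((2 : ℝ) ^ m) ^ (-(1 + ε)) * (Real.sqrt CT * 2 ^ m) :=
            mul_le_mul_of_nonneg_left h3 (by positivity)
        _ = Real.sqrt CT * (((2 : ℝ) ^ m) ^ (-(1 + ε)) * ((2 : ℝ) ^ m) ^ (1 : ℝ)) := by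
            rw [Real.rpow_one]; ring
        _ = _ := by
            rw [← Real.rpow_add hp0]
            congr 2
            ring
    refine (norm_sum_le_of_le _ h1).trans ?_
    rw [← mul_sum]
    exact mul_le_mul_of_nonneg_left (geom_le hε hε1 I) (Real.sqrt_nonneg _)
  have h1 : ∑ j, ‖∑ p ∈ S, c p * (χ j p * (wt ε p : ℂ))‖ ^ 2 = ‖V‖ ^ 2 := by
    rw [EuclideanSpace.norm_eq, Real.sq_sqrt (sum_nonneg fun j _ => by positivity)]
  rw [h1]
  have h2 := pow_le_pow_left₀ (norm_nonneg _) hnorm 2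
  refine h2.trans (le_of_eq ?_)
  rw [mul_pow, Real.sq_sqrt hCT.le]
  ring

end Pool.Agent.H439.FQ
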