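import Pool.Agent.H439.FQ.Fam
import Pool.Agent.H439.FQ.Gen
import Pool.Agent.H439.QD.Model

/-!
# The limit law for the quadratic twists
-/

set_option autoImplicit false
set_option linter.unusedSectionVars false

namespace Pool.Agent.H439.FQ

open Finset Complex ComplexConjugate Filter Topology MeasureTheory NumberField IsDedekindDomain
  Pool.Agent.TH339.MP Pool.Agent.H439.LS Pool.Agent.H439.LL Pool.Agent.H439.FA
  Pool.Agent.H439.QD

lemma qg_prime (d : ℤ) {p : ℕ} (hp : p.Prime) : qg d 0 p = ((kr d p : ℤ) : ℂ) := by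
  unfold qg
  rw [qc_prime d hp]
  unfold ph
  simp

/-- **The mean square of a finite part of the tail over the quadratic twists.** -/
theorem fin_qf {Y : ℕ} (hY : 2 ≤ Y) : ∃ X₀ : ℕ, ∀ x : ℕ, X₀ ≤ x → ∀ ε : ℝ, 0 < ε → ε ≤ 1 / 2 →
    ∀ (K : Type) [Field K] [NumberField K] (a : HeightOneSpectrum (𝓞 K) → ℂ) (M : ℝ), 0 ≤ M →
      (∀ v, ‖a v‖ ≤ M) → ∀ T : Finset (HeightOneSpectrum (𝓞 K)), (∀ v ∈ T, Y < nm v) →
      ∑ d ∈ SF x, ‖∑ v ∈ T, ft a (qg d 0) ε v‖ ^ 2 ≤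
        (SF x).card * dl ((Module.finrank ℚ K : ℝ) * M) Y +
          24 * CT * ((Module.finrank ℚ K : ℝ) * M) ^ 2 / ε ^ 2 := by
  obtain ⟨X₀, hX₀⟩ := fin_q hY
  refine ⟨X₀, fun x hx ε hε hε1 K _ _ a M hM ha T hT => ?_⟩
  classical
  have hCT := CT_pos
  obtain ⟨S, hS, hred⟩ := reduce hM ha (by omega : 1 ≤ Y) T hT
  set m : ℝ := (Module.finrank ℚ K : ℝ) * M with hm
  have hm0 : 0 ≤ m := by positivity
  set c : ℕ → ℂ := fun p => if m = 0 then 0 else cT a T p / (m : ℂ) with hc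
  have hc1 : ∀ p : ℕ, p.Prime → ‖c p‖ ≤ 1 := by
    intro p hp
    simp only [hc]
    split_ifs with h
    · simp
    · have hmp : 0 < m := lt_of_le_of_ne hm0 (Ne.symm h)
      rw [norm_div, Complex.norm_real, Real.norm_of_nonneg hm0, div_le_one hmp]
      exact norm_cT hM ha T hp
  have hc2 : ∀ p : ℕ, p.Prime → cT a T p = (m : ℂ) * c p := by
    intro p hp
    simp only [hc]
    split_ifs with h
    · have := norm_cT hM ha T hp
      rw [← hm, h, norm_le_zero_iff] at this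
      rw [this, mul_zero]
    · have : (m : ℂ) ≠ 0 := by exact_mod_cast h
      field_simp
  have h1 := hX₀ x hx ε hε hε1 c hc1 S hS
  set R : ℝ := 8 * m * c₂ * (Y : ℝ) ^ (-(1 / 8 : ℝ)) with hR
  have hpt : ∀ d ∈ SF x, ‖∑ v ∈ T, ft a (qg d 0) ε v‖ ^ 2 ≤
      2 * m ^ 2 * ‖∑ p ∈ S, c p * (((kr d p : ℤ) : ℂ) * (FA.wt ε p : ℂ))‖ ^ 2 + 2 * R ^ 2 := by
    intro d _
    have h2 := hred (qg d 0) ε (pm_qg d 0) hε.le
    have h3 : ∑ p ∈ S, cT a T p * (qg d 0 p * (FA.wt ε p : ℂ)) =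
        (m : ℂ) * ∑ p ∈ S, c p * (((kr d p : ℤ) : ℂ) * (FA.wt ε p : ℂ)) := by
      rw [mul_sum]
      apply sum_congr rfl
      intro p hp
      rw [hc2 p (hS p hp).1, qg_prime d (hS p hp).1]
      ring
    rw [h3] at h2
    set A := ∑ v ∈ T, ft a (qg d 0) ε v
    set B := ∑ p ∈ S, c p * (((kr d p : ℤ) : ℂ) * (FA.wt ε p : ℂ))
    have h4 : ‖A‖ ≤ m * ‖B‖ + R := by
      have e : A = (m : ℂ) * B + (A - (m : ℂ) * B) := by ring
      rw [e]
      refine (norm_add_le _ _).trans ?_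
      rw [norm_mul, Complex.norm_real, Real.norm_of_nonneg hm0]
      linarith
    have h5 := pow_le_pow_left₀ (norm_nonneg _) h4 2
    nlinarith [sq_nonneg (m * ‖B‖ - R)]
  refine (sum_le_sum hpt).trans ?_
  rw [sum_add_distrib, ← mul_sum, sum_const, nsmul_eq_mul]
  have h6 : R ^ 2 = 64 * m ^ 2 * c₂ ^ 2 * (Y : ℝ) ^ (-(1 / 4 : ℝ)) := by
    rw [hR, mul_pow, sq_rpow]
    ring
  rw [h6]
  have h7 := mul_le_mul_of_nonneg_left h1 (by positivity : 0 ≤ 2 * m ^ 2)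
  have h8 : 2 * m ^ 2 * (((SF x).card : ℝ) * (300 / Real.sqrt Y) + 12 * CT / ε ^ 2) =
      ((SF x).card : ℝ) * (m ^ 2 * (600 / Real.sqrt Y)) + 24 * CT * m ^ 2 / ε ^ 2 := by ring
  rw [h8] at h7
  have h9 : ((SF x).card : ℝ) * (m ^ 2 * (600 / Real.sqrt Y)) ≤
      ((SF x).card : ℝ) * (m ^ 2 * (3072 / Real.sqrt Y)) := by
    apply mul_le_mul_of_nonneg_left _ (by positivity)
    apply mul_le_mul_of_nonneg_left _ (by positivity)
    exact div_le_div_of_nonneg_right (by norm_num) (Real.sqrt_nonneg _)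
  unfold dl
  have e : ((SF x).card : ℝ) * (m ^ 2 * (3072 / Real.sqrt (Y : ℝ) +
      128 * c₂ ^ 2 * (Y : ℝ) ^ (-(1 / 4 : ℝ)))) =
      ((SF x).card : ℝ) * (m ^ 2 * (3072 / Real.sqrt Y)) +
        (SF x).card * (2 * (64 * m ^ 2 * c₂ ^ 2 * (Y : ℝ) ^ (-(1 / 4 : ℝ)))) := by ring
  rw [e]
  linarith

/-- **The mean square of the tail over the quadratic twists.** -/
theorem tail_q {Y : ℕ} (hY : 2 ≤ Y) : ∃ X₀ : ℕ, ∀ x : ℕ, X₀ ≤ x → ∀ ε : ℝ, 0 < ε → ε ≤ 1 / 2 →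
    ∀ (K : Type) [Field K] [NumberField K] (a : HeightOneSpectrum (𝓞 K) → ℂ) (M : ℝ), 0 ≤ M →
      (∀ v, ‖a v‖ ≤ M) →
      ∑ d ∈ SF x, ‖FS a (qg d 0) ε - FY a (qg d 0) ε Y‖ ^ 2 ≤
        (SF x).card * dl ((Module.finrank ℚ K : ℝ) * M) Y +
          24 * CT * ((Module.finrank ℚ K : ℝ) * M) ^ 2 / ε ^ 2 := by
  obtain ⟨X₀, hX₀⟩ := fin_qf hY
  refine ⟨X₀, fun x hx ε hε hε1 K _ _ a M hM ha => ?_⟩
  have h1 : Tendsto (fun N : ℕ => ∑ d ∈ SF x, ‖FY a (qg d 0) ε N - FY a (qg d 0) ε Y‖ ^ 2) atTop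
      (𝓝 (∑ d ∈ SF x, ‖FS a (qg d 0) ε - FY a (qg d 0) ε Y‖ ^ 2)) := by
    apply tendsto_finsetSum
    intro d _
    exact (((tendsto_FY ha (pm_qg d 0) hε).sub_const _).norm).pow 2
  refine le_of_tendsto h1 ?_
  filter_upwards [eventually_ge_atTop Y] with N hN
  simp_rw [FY_sub a _ ε hN]
  exact hX₀ x hx ε hε hε1 K a M hM ha _ fun v hv => lt_of_mem_Vb hv

/-- the uniform distribution on the family -/
noncomputable def muF (x : ℕ) : Measure ℤ :=
  ((SF x).card : ENNReal)⁻¹ • ∑ d ∈ SF x, Measure.dirac d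

lemma prob_muF {x : ℕ} (hx : 0 < (SF x).card) : IsProbabilityMeasure (muF x) := by
  constructor
  unfold muF
  rw [Measure.smul_apply, Measure.finsetSum_apply]
  simp only [measure_univ, sum_const, nsmul_eq_mul, mul_one, smul_eq_mul]
  exact ENNReal.inv_mul_cancel (by exact_mod_cast hx.ne') (ENNReal.natCast_ne_top _)

lemma integrable_muF {E : Type*} [NormedAddCommGroup E] {x : ℕ} (hx : 0 < (SF x).card)
    (f : ℤ → E) : Integrable f (muF x) := by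
  unfold muF
  apply Integrable.smul_measure
  · rw [integrable_finsetSum_measure]
    intro d _
    exact integrable_dirac (by simp)
  · exact ENNReal.inv_ne_top.2 (by exact_mod_cast hx.ne')

lemma integral_muF {x : ℕ} (f : ℤ → ℝ) :
    ∫ d, f d ∂(muF x) = ((SF x).card : ℝ)⁻¹ * ∑ d ∈ SF x, f d := by
  unfold muF
  rw [integral_smul_measure, integral_finsetSum_measure]
  · simp
  · intro d _
    exact integrable_dirac (by simp)

end Pool.Agent.H439.FQ
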