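import Pool.Agent.H439.FQ.Large

/-!
# The primes of medium size
-/

set_option autoImplicit false

namespace Pool.Agent.H439.FQ

open Finset Complex ComplexConjugate Filter Topology Pool.Agent.H439.LS Pool.Agent.H439.FA
  Pool.Agent.H439.TH Pool.Agent.H439.SP

lemma summable_lv1 : Summable fun m : ℕ => 3 * ((m : ℝ) + 1) * lv 1 m := by
  have hl2 : 0 < Real.log 2 := Real.log_pos (by norm_num)
  set r : ℝ := Real.exp (-(1 / 400 * Real.log 2)) with hr
  have hr0 : 0 < r := Real.exp_pos _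
  have hr1 : r < 1 := by
    rw [hr, Real.exp_lt_one_iff]
    linarith
  have h1 : ∀ m : ℕ, lv 1 m = r ^ m := by
    intro m
    unfold lv
    rw [hr, ← Real.exp_nat_mul]
    congr 1
    ring
  have h2 : Summable fun m : ℕ => ((m : ℝ)) * r ^ m := by
    have := summable_pow_mul_geometric_of_norm_lt_one 1 (r := r) (by
      rw [Real.norm_of_nonneg hr0.le]; exact hr1)
    simpa using this
  have h3 : Summable fun m : ℕ => r ^ m := summable_geometric_of_lt_one hr0.le hr1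
  refine ((h2.add h3).mul_left 3).congr fun m => ?_
  rw [h1]
  ring

/-- the tails of the series -/
lemma tail_sum {f : ℕ → ℝ} (hf : Summable f) (h0 : ∀ n, 0 ≤ f n) {η : ℝ} (hη : 0 < η) :
    ∃ m₁ : ℕ, ∀ I : Finset ℕ, (∀ m ∈ I, m₁ ≤ m) → ∑ m ∈ I, f m ≤ η := by
  have h1 := (tendsto_sum_nat_add f).eventually (gt_mem_nhds hη)
  obtain ⟨m₁, hm₁⟩ := h1.exists
  refine ⟨m₁, fun I hI => ?_⟩
  have hs : Summable fun k => f (k + m₁) := (summable_nat_add_iff m₁).2 hf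
  have h2 : ∑ m ∈ I, f m = ∑ k ∈ I.image (fun m => m - m₁), f (k + m₁) := by
    rw [sum_image]
    · apply sum_congr rfl
      intro m hm
      rw [Nat.sub_add_cancel (hI m hm)]
    · intro m hm m' hm' h
      have h3 := hI m hm
      have h4 := hI m' hm'
      simp only at h
      omega
  rw [h2]
  exact (hs.sum_le_tsum _ fun k _ => h0 _).trans hm₁.le

/-- the trivial bound -/
lemma triv {c g : ℕ → ℂ} {S : Finset ℕ} (hS : ∀ p ∈ S, p.Prime) (hc : ∀ p ∈ S, ‖c p‖ ≤ 1)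
    (hg : ∀ p ∈ S, ‖g p‖ ≤ 1) {n : ℕ} (hn : ∀ p ∈ S, p ≤ 2 ^ n) {ε : ℝ} (hε : 0 ≤ ε) {L : ℝ}
    (hL : (n : ℝ) * Real.log 2 ≤ L) (hL1 : 1 ≤ L) :
    ‖∑ p ∈ S, c p * (g p * (wt ε p : ℂ))‖ ≤ 2 * L ^ 2 := by
  have h1 : ∀ p ∈ S, ‖c p * (g p * (wt ε p : ℂ))‖ ≤ L * (1 / (p : ℝ)) := by
    intro p hp
    have hpp := hS p hp
    have hp0 : (0 : ℝ) < p := by exact_mod_cast hpp.pos
    rw [norm_mul, norm_mul, Complex.norm_real, Real.norm_of_nonneg (wt_nonneg _ _)]
    have h2 : wt ε p ≤ L * (1 / (p : ℝ)) := by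
      refine (wt_le hε hpp.pos).trans ?_
      rw [mul_one_div]
      apply div_le_div_of_nonneg_right _ hp0.le
      have h3 : (p : ℝ) ≤ 2 ^ n := by exact_mod_cast hn p hp
      have h4 := Real.log_le_log hp0 h3
      rw [Real.log_pow] at h4
      exact h4.trans hL
    calc ‖c p‖ * (‖g p‖ * wt ε p) ≤ 1 * (1 * wt ε p) := by
          apply mul_le_mul (hc p hp) _ (mul_nonneg (norm_nonneg _) (wt_nonneg _ _)) (by norm_num)
          exact mul_le_mul_of_nonneg_right (hg p hp) (wt_nonneg _ _)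
      _ = wt ε p := by ring
      _ ≤ _ := h2
  refine (norm_sum_le_of_le _ h1).trans ?_
  rw [← mul_sum]
  have h2 : ∑ p ∈ S, 1 / (p : ℝ) ≤ hr (2 ^ n) := by
    unfold hr
    have h3 : ∑ p ∈ S, 1 / (p : ℝ) = ∑ k ∈ S.image (fun p : ℕ => p - 1), 1 / ((k : ℝ) + 1) := by
      rw [sum_image]
      · apply sum_congr rfl
        intro p hp
        have h4 := (hS p hp).one_le
        have h5 : ((p - 1 : ℕ) : ℝ) + 1 = p := by
          have : p - 1 + 1 = p := by omega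
          exact_mod_cast this
        rw [h5]
      · intro p hp p' hp' h
        have h4 := (hS p hp).one_le
        have h5 := (hS p' hp').one_le
        simp only at h
        omega
    rw [h3]
    apply sum_le_sum_of_subset_of_nonneg
    · intro k hk
      rw [mem_image] at hk
      obtain ⟨p, hp, rfl⟩ := hk
      have h4 := hn p hp
      have h5 := (hS p hp).one_le
      rw [mem_range]
      omega
    · intro k _ _
      positivity
  have h3 := hr_le (2 ^ n)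
  have h4 : Real.log ((2 ^ n : ℕ) : ℝ) ≤ L := by
    push_cast
    rw [Real.log_pow]
    exact hL
  have h5 : ∑ p ∈ S, 1 / (p : ℝ) ≤ 2 * L := by linarith
  calc L * ∑ p ∈ S, 1 / (p : ℝ) ≤ L * (2 * L) := mul_le_mul_of_nonneg_left h5 (by linarith)
    _ = _ := by ring

/-- **The primes of medium size.** -/
theorem med_ms {η : ℝ} (hη : 0 < η) :
    ∀ᶠ ℓ : ℝ in atTop, ∀ (J : ℕ) (q : Fin J → ℕ) (χ : ∀ j, DirichletCharacter ℂ (q j)),
      (∀ j, 0 < q j) → (∀ j k, j ≠ k → ¬ Agree (χ j) (χ k)) → (∀ j, (q j : ℝ) ≤ Real.exp ℓ) →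
      ∀ c : ℕ → ℂ, (∀ p : ℕ, p.Prime → ‖c p‖ ≤ 1) → ∀ ε : ℝ, 0 < ε → ∀ m₀ n : ℕ,
      120 * Real.log ℓ ≤ m₀ * Real.log 2 → (n : ℝ) * Real.log 2 ≤ 42 * ℓ →
      ∀ S : Finset ℕ, (∀ p ∈ S, p.Prime ∧ 2 ^ m₀ < p ∧ p ≤ 2 ^ n) →
      ∑ j, ‖∑ p ∈ S, c p * (χ j p * (wt ε p : ℂ))‖ ^ 2 ≤ η * J + Real.exp (3 * ℓ / 4) := by
  have hl2 : 0 < Real.log 2 := Real.log_pos (by norm_num)
  have hl2b := Real.log_two_lt_d9
  obtain ⟨m₁, hm₁⟩ := tail_sum summable_lv1 (fun m => by have := lv_pos 1 m; positivity)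
    (Real.sqrt_pos.2 hη)
  filter_upwards [medium (δ := 1) (M := 1) one_pos le_rfl zero_le_one,
    ev_pow (4 * 42 ^ 4) (b := 1 / 4) (by norm_num) 4,
    Real.tendsto_log_atTop.eventually_ge_atTop (((m₁ : ℝ) + 2) * Real.log 2),
    eventually_ge_atTop 1] with ℓ hmed hev hlog hℓ1
  intro J q χ hq0 hag hq c hc ε hε m₀ n hm₀ hn S hS
  classical
  have hℓ0 : 0 < ℓ := by linarith
  have hm₀1 : m₁ + 2 ≤ m₀ := by
    have h1 : ((m₁ : ℝ) + 2) * Real.log 2 ≤ m₀ * Real.log 2 := by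
      have h2 : 0 ≤ ((m₁ : ℝ) + 2) * Real.log 2 := by positivity
      have h3 : 0 ≤ Real.log ℓ := h2.trans hlog
      linarith
    have h2 := le_of_mul_le_mul_right h1 hl2
    exact_mod_cast h2
  obtain ⟨E, hE1, hE2⟩ := hmed J q χ (fun _ => 0) ⟨hq0, fun j k hjk h => absurd h (hag j k hjk)⟩ hq
    (fun j => by rw [abs_zero]; positivity) (ab c S ε) (norm_ab hc S hε.le)
  have hS' : ∀ p ∈ S, p.Prime := fun p hp => (hS p hp).1
  set I : Finset ℕ := S.image (Nat.log 2) with hI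
  have hIn : ∀ m ∈ I, m₀ ≤ m ∧ m < n := by
    intro m hm
    rw [hI, mem_image] at hm
    obtain ⟨p, hp, rfl⟩ := hm
    obtain ⟨h1, h2, h3⟩ := hS p hp
    refine ⟨(Nat.le_log_iff_pow_le (by norm_num) h1.pos.ne').2 h2.le, ?_⟩
    have h4 : p ≠ 2 ^ n := by
      intro h0
      rw [h0] at h1
      have h5 := Nat.Prime.eq_one_of_pow h1
      rw [h5] at h3
      have h6 : 2 ^ m₀ < 2 ^ 1 := by omega
      have h7 := (Nat.pow_lt_pow_iff_right (by norm_num : 1 < 2)).1 h6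
      omega
    exact Nat.log_lt_of_lt_pow h1.pos.ne' (lt_of_le_of_ne h3 h4)
  have hgood : ∀ j, j ∉ E → ‖∑ p ∈ S, c p * (χ j p * (wt ε p : ℂ))‖ ^ 2 ≤ η := by
    intro j hj
    have h1 : ‖∑ p ∈ S, c p * (χ j p * (wt ε p : ℂ))‖ ≤ Real.sqrt η := by
      rw [← sum_fiberwise_of_maps_to (s := S) (t := I) (g := Nat.log 2)
        (fun p hp => mem_image_of_mem _ hp)]
      have h2 : ∀ m ∈ I, ‖∑ p ∈ S with Nat.log 2 p = m, c p * (χ j p * (wt ε p : ℂ))‖ ≤
          3 * ((m : ℝ) + 1) * lv 1 m := by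
        intro m hm
        obtain ⟨h3, h4⟩ := hIn m hm
        have hm2 : 2 ≤ m := by omega
        have hm1 : 1 ≤ m := by omega
        have h5 := block_eq (χ j) c hS' (ε := ε) hm1
        have h6 : (S.filter fun p => Nat.log 2 p = m) =
            S.filter fun p => p ∈ Ioc (2 ^ m) (2 ^ (m + 1)) := by
          apply filter_congr
          intro p hp
          exact ⟨mem_of_log2 hm2 (hS' p hp), log2_of_mem hm1 (hS' p hp)⟩
        rw [h6, h5, norm_mul, Complex.norm_real, Real.norm_of_nonneg (by positivity)]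
        have h7 := hE2 j hj m (2 ^ (m + 1)) hm1 (by
          refine le_trans ?_ hn
          apply mul_le_mul_of_nonneg_right _ hl2.le
          exact_mod_cast h4.le) (by
          rw [div_one]
          refine hm₀.trans ?_
          apply mul_le_mul_of_nonneg_right _ hl2.le
          exact_mod_cast h3) (Nat.pow_le_pow_right (by norm_num) (by omega)) le_rfl
        unfold TH.ST at h7
        rw [neg_zero] at h7
        have hp0 : (0 : ℝ) < 2 ^ m := by positivity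
        have hp1 : (1 : ℝ) ≤ 2 ^ m := one_le_pow₀ (by norm_num)
        have h8 : ((2 : ℝ) ^ m) ^ (-(1 + ε)) ≤ ((2 : ℝ) ^ m)⁻¹ := by
          rw [← Real.rpow_neg_one]
          exact Real.rpow_le_rpow_of_exponent_le hp1 (by linarith)
        calc ((2 : ℝ) ^ m) ^ (-(1 + ε)) * ‖∑ p ∈ (Ioc (2 ^ m) (2 ^ (m + 1))).filter Nat.Prime,
              ab c S ε p * Real.log p * (χ j p * ph 0 p)‖ ≤
              ((2 : ℝ) ^ m)⁻¹ * ((2 + 1) * ((m : ℝ) + 1) * (2 ^ m * lv 1 m)) :=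
              mul_le_mul h8 h7 (norm_nonneg _) (by positivity)
          _ = _ := by field_simp; ring
      refine (norm_sum_le_of_le _ h2).trans ?_
      exact hm₁ I fun m hm => by have := (hIn m hm).1; omega
    have h2 := pow_le_pow_left₀ (norm_nonneg _) h1 2
    rwa [Real.sq_sqrt hη.le] at h2
  have hbad : ∀ j ∈ E, ‖∑ p ∈ S, c p * (χ j p * (wt ε p : ℂ))‖ ^ 2 ≤ 4 * 42 ^ 4 * ℓ ^ 4 := by
    intro j _
    have h1 := triv (c := c) (g := fun p => χ j p) hS' (fun p hp => hc p (hS' p hp))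
      (fun p _ => (χ j).norm_le_one _) (fun p hp => (hS p hp).2.2) hε.le hn (by linarith)
    have h2 := pow_le_pow_left₀ (norm_nonneg _) h1 2
    refine h2.trans (le_of_eq ?_)
    ring
  rw [← sum_add_sum_compl E]
  have h1 : ∑ j ∈ E, ‖∑ p ∈ S, c p * (χ j p * (wt ε p : ℂ))‖ ^ 2 ≤ Real.exp (3 * ℓ / 4) := by
    refine (sum_le_sum hbad).trans ?_
    rw [sum_const, nsmul_eq_mul]
    calc (E.card : ℝ) * (4 * 42 ^ 4 * ℓ ^ 4) ≤ Real.exp (1 * ℓ / 2) * Real.exp (1 / 4 * ℓ) :=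
          mul_le_mul hE1 hev (by positivity) (Real.exp_nonneg _)
      _ = Real.exp (3 * ℓ / 4) := by
          rw [← Real.exp_add]
          congr 1
          ring
  have h2 : ∑ j ∈ Eᶜ, ‖∑ p ∈ S, c p * (χ j p * (wt ε p : ℂ))‖ ^ 2 ≤ η * J := by
    refine (sum_le_sum fun j hj => hgood j (mem_compl.1 hj)).trans ?_
    rw [sum_const, nsmul_eq_mul, mul_comm]
    apply mul_le_mul_of_nonneg_left _ hη.le
    have := card_le_univ (Eᶜ)
    rw [Fintype.card_fin] at this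
    exact_mod_cast this
  linarith

end Pool.Agent.H439.FQ
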