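import Pool.Agent.H439.FQ.Law

/-!
# The limit law for the quadratic twists: the proof
-/

set_option autoImplicit false
set_option linter.unusedSectionVars false
set_option linter.unusedVariables false

namespace Pool.Agent.H439.FQ

open Finset Complex ComplexConjugate Filter Topology MeasureTheory NumberField IsDedekindDomain
  Pool.Agent.TH339.MP Pool.Agent.H439.LS Pool.Agent.H439.LL Pool.Agent.H439.FA
  Pool.Agent.H439.QD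

section
variable {Ω : Type} [MeasurableSpace Ω] {μ : Measure Ω} [IsProbabilityMeasure μ] {X : ℕ → Ω → ℤ}

/-- the random model is a random function with orthogonal values -/
lemma rnd_rad (h : Rad μ X) : Rnd μ fun ω => qX X 0 ω := by
  have e : ∀ (ω : Ω) (p : ℕ), qX X 0 ω p = ((X p ω : ℤ) : ℂ) := by
    intro ω p
    unfold qX ph
    simp
  refine ⟨fun ω => pm_qX h 0 ω, fun p hp => ?_, fun T hT b => ?_⟩
  · simp_rw [e]
    exact (measurable_of_countable fun s : ℤ => (s : ℂ)).comp (h.meas ⟨p, hp⟩)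
  · simp_rw [e]
    exact mean_sq_rad h T hT b

end

section
variable {K : Type} [Field K] [NumberField K] {r : ℕ}

/-- the partial sums with prescribed values at the primes -/
noncomputable def FU (a : Fin r → HeightOneSpectrum (𝓞 K) → ℂ) (u : ℕ → ℂ) (ε : ℝ) (Y : ℕ) :
    Fin r → ℂ := fun k => ∑ v ∈ Vy K (Y : ℝ),
      a k v * (u (pr v : Nat.Primes) ^ dg v * (FA.wt ε (nm v) : ℂ))

lemma FV_eq_FU (a : Fin r → HeightOneSpectrum (𝓞 K) → ℂ) {g : ℕ → ℂ} (hg : PM g) (ε : ℝ)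
    (Y : ℕ) : FV a g ε Y = FU a g ε Y := by
  funext k
  unfold FV FY ft FU
  apply sum_congr rfl
  intro v hv
  rw [← hg.pow _ (pr v).2, ← nm_eq]

lemma FU_congr (a : Fin r → HeightOneSpectrum (𝓞 K) → ℂ) {Y : ℕ} {u u' : ℕ → ℂ}
    (h : ∀ p ∈ DY Y, u p = u' p) (ε : ℝ) : FU a u ε Y = FU a u' ε Y := by
  funext k
  unfold FU
  apply sum_congr rfl
  intro v hv
  rw [h _ (pr_mem_DY hv)]

lemma FV_qg (a : Fin r → HeightOneSpectrum (𝓞 K) → ℂ) (m : ℤ) (ε : ℝ) (Y : ℕ) :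
    FV a (qg m 0) ε Y = FU a (exs Y (fun i => kr m i) 0) ε Y := by
  rw [FV_eq_FU a (pm_qg m 0)]
  apply FU_congr
  intro p hp
  unfold qg exs
  rw [dif_pos hp, qc_prime m (mem_filter.1 hp).2]

lemma FV_qX {Ω : Type} [MeasurableSpace Ω] {μ : Measure Ω} [IsProbabilityMeasure μ]
    {X : ℕ → Ω → ℤ} (h : Rad μ X) (a : Fin r → HeightOneSpectrum (𝓞 K) → ℂ) (ω : Ω) (ε : ℝ)
    (Y : ℕ) : FV a (qX X 0 ω) ε Y = FU a (exs Y (pX Y X ω) 0) ε Y := by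
  rw [FV_eq_FU a (pm_qX h 0 ω)]
  apply FU_congr
  intro p hp
  unfold qX exs pX
  rw [dif_pos hp]

lemma norm_FU {a : Fin r → HeightOneSpectrum (𝓞 K) → ℂ} {M : ℝ} (hM : 0 ≤ M)
    (ha : ∀ k v, ‖a k v‖ ≤ M) {u : ℕ → ℂ} (hu : ∀ p : ℕ, p.Prime → ‖u p‖ ≤ 1) {ε : ℝ} (hε : 0 ≤ ε)
    (Y : ℕ) : ‖FU a u ε Y‖ ≤ bY K M Y := by
  have h0 : 0 ≤ bY K M Y := by
    unfold bY
    apply sum_nonneg
    intro v _
    have h1 : (1 : ℝ) ≤ nm v := by exact_mod_cast nm_pos v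
    have := Real.log_nonneg h1
    positivity
  rw [pi_norm_le_iff_of_nonneg h0]
  intro k
  unfold FU bY
  apply norm_sum_le_of_le
  intro v _
  rw [norm_mul, norm_mul, norm_pow, Complex.norm_real, Real.norm_of_nonneg (FA.wt_nonneg _ _)]
  have h1 : ‖u (pr v : Nat.Primes)‖ ^ dg v ≤ 1 := pow_le_one₀ (norm_nonneg _) (hu _ (pr v).2)
  have h2 := FA.wt_le hε (nm_pos v)
  calc ‖a k v‖ * (‖u (pr v : Nat.Primes)‖ ^ dg v * FA.wt ε (nm v)) ≤ M * (1 * FA.wt ε (nm v)) := by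
        apply mul_le_mul (ha k v) _ (by have := FA.wt_nonneg ε (nm v); positivity) hM
        exact mul_le_mul_of_nonneg_right h1 (FA.wt_nonneg _ _)
    _ ≤ _ := by
        rw [one_mul]
        exact mul_le_mul_of_nonneg_left h2 hM

/-- **Comparison of the family and the random model at a finite level.** -/
theorem pat_cmp {a : Fin r → HeightOneSpectrum (𝓞 K) → ℂ} {M : ℝ} (hM : 0 ≤ M)
    (ha : ∀ k v, ‖a k v‖ ≤ M) (Y : ℕ) {f : (Fin r → ℂ) → ℝ} (hf : Continuous f) {η : ℝ}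
    (hη : 0 < η) :
    ∀ᶠ x : ℕ in atTop, ∀ ε : ℝ, 0 ≤ ε → ∀ (Ω : Type) [MeasurableSpace Ω] (μ : Measure Ω)
      [IsProbabilityMeasure μ] (X : ℕ → Ω → ℤ), Rad μ X →
        |((SF x).card : ℝ)⁻¹ * ∑ d ∈ SF x, f (FV a (qg d 0) ε Y) -
          ∫ ω, f (FV a (qX X 0 ω) ε Y) ∂μ| ≤ η := by
  classical
  obtain ⟨D, hD⟩ := ((isCompact_closedBall (0 : Fin r → ℂ) (bY K M Y)).image hf).isBounded.exists_norm_le
  have hDf : ∀ z : Fin r → ℂ, ‖z‖ ≤ bY K M Y → |f z| ≤ D := by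
    intro z hz
    have := hD (f z) ⟨z, by rwa [mem_closedBall_zero_iff], rfl⟩
    rwa [Real.norm_eq_abs] at this
  have h0 : 0 ≤ |D| := abs_nonneg _
  filter_upwards [compare Y h0 hη] with x hx ε hε Ω _ μ _ X hX
  set G : (DY Y → ℤ) → ℝ := fun σ => if σ ∈ PT Y then f (FU a (exs Y σ 0) ε Y) else 0 with hG
  have hGb : ∀ σ, |G σ| ≤ |D| := by
    intro σ
    simp only [hG]
    split_ifs with h
    · refine (hDf _ ?_).trans (le_abs_self _)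
      exact norm_FU hM ha (fun p hp => norm_exs h 0 ⟨p, hp⟩) hε Y
    · rw [abs_zero]
      exact h0
  have h1 := hx G hGb Ω μ X hX
  have h2 : ∀ d ∈ SF x, G (fun i => kr d i) = f (FV a (qg d 0) ε Y) := by
    intro d _
    simp only [hG]
    rw [if_pos (mem_PT.2 fun i => kr_mem d i), FV_qg]
  have h3 : ∀ ω, G (pX Y X ω) = f (FV a (qX X 0 ω) ε Y) := by
    intro ω
    simp only [hG]
    rw [if_pos (hX.mem_PT Y ω), FV_qX hX]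
  rw [sum_congr rfl h2] at h1
  simp_rw [h3] at h1
  exact h1

/-- the family: the tail is small in mean square -/
lemma small_q {a : Fin r → HeightOneSpectrum (𝓞 K) → ℂ} {M : ℝ} (hM : 0 ≤ M)
    (ha : ∀ k v, ‖a k v‖ ≤ M) {δ : ℝ} (hδ : 0 < δ) :
    ∀ᶠ Y : ℕ in atTop, ∃ (X₀ : ℕ) (T₀ : ℝ), ∀ (x : ℕ) (ε : ℝ), X₀ ≤ x → 0 < ε → ε ≤ 1 / 2 →
      T₀ ≤ x * ε ^ 2 → 0 < (SF x).card ∧
      ∫ d, ‖FSV a (qg d 0) ε - FV a (qg d 0) ε Y‖ ^ 2 ∂(muF x) ≤ δ := by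
  set m : ℝ := (Module.finrank ℚ K : ℝ) * M with hm
  have hCT := CT_pos
  have h1 : Tendsto (fun Y : ℕ => (r : ℝ) * dl m Y) atTop (𝓝 (r * 0)) :=
    (tendsto_dl m).const_mul _
  rw [mul_zero] at h1
  filter_upwards [h1.eventually (gt_mem_nhds (half_pos hδ)), eventually_ge_atTop 2] with Y hY1 hY2
  obtain ⟨X₁, hX₁⟩ := tail_q hY2
  obtain ⟨X₂, hX₂⟩ := eventually_atTop.1 card_SF_ge
  set Q : ℝ := (r : ℝ) * (24 * CT * m ^ 2) with hQ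
  have hQ0 : 0 ≤ Q := by positivity
  refine ⟨max (max X₁ X₂) 1, 2 * Q / δ + 1, fun x ε hx hε hε1 hT => ?_⟩
  have hx1 : X₁ ≤ x := ((le_max_left _ _).trans (le_max_left _ _)).trans hx
  have hx2 : X₂ ≤ x := ((le_max_right _ _).trans (le_max_left _ _)).trans hx
  have hx3 : 1 ≤ x := (le_max_right _ _).trans hx
  have hx0 : (0 : ℝ) < x := by exact_mod_cast hx3
  have hc1 := hX₂ x hx2
  have hc0 : (0 : ℝ) < (SF x).card := lt_of_lt_of_le hx0 hc1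
  have hcard : 0 < (SF x).card := by exact_mod_cast hc0
  refine ⟨hcard, ?_⟩
  have hprob := prob_muF hcard
  have hcomp : ∀ k, ∫ d, ‖FSV a (qg d 0) ε k - FV a (qg d 0) ε Y k‖ ^ 2 ∂(muF x) ≤
      dl m Y + 24 * CT * m ^ 2 / (x * ε ^ 2) := by
    intro k
    rw [integral_muF]
    have h2 := hX₁ x hx1 ε hε hε1 K (a k) M hM (ha k)
    rw [← hm] at h2
    change ((SF x).card : ℝ)⁻¹ * ∑ d ∈ SF x, ‖FS (a k) (qg d 0) ε - FY (a k) (qg d 0) ε Y‖ ^ 2 ≤ _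
    calc _ ≤ ((SF x).card : ℝ)⁻¹ * ((SF x).card * dl m Y + 24 * CT * m ^ 2 / ε ^ 2) :=
          mul_le_mul_of_nonneg_left h2 (by positivity)
      _ = dl m Y + ((SF x).card : ℝ)⁻¹ * (24 * CT * m ^ 2 / ε ^ 2) := by
          rw [mul_add, ← mul_assoc, inv_mul_cancel₀ hc0.ne', one_mul]
      _ ≤ dl m Y + (x : ℝ)⁻¹ * (24 * CT * m ^ 2 / ε ^ 2) := by
          have := mul_le_mul_of_nonneg_right (inv_anti₀ hx0 hc1)
            (by positivity : 0 ≤ 24 * CT * m ^ 2 / ε ^ 2)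
          linarith
      _ = _ := by
          congr 1
          field_simp
  have h3 := (vec_sq (μ := muF x) (Z := fun d : ℤ => FSV a (qg d 0) ε)
    (W := fun d : ℤ => FV a (qg d 0) ε Y) (measurable_of_countable _) (measurable_of_countable _)
    (fun k => integrable_muF hcard _) hcomp).2
  refine h3.trans ?_
  have h4 : (r : ℝ) * (dl m Y + 24 * CT * m ^ 2 / (x * ε ^ 2)) = r * dl m Y + Q / (x * ε ^ 2) := by
    rw [hQ]
    ring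
  rw [h4]
  have hpos : 0 < (x : ℝ) * ε ^ 2 := by positivity
  have h5 : Q / (x * ε ^ 2) ≤ δ / 2 := by
    rw [div_le_iff₀ hpos]
    have h6 : 2 * Q / δ ≤ x * ε ^ 2 := by linarith
    rw [div_le_iff₀ hδ] at h6
    linarith
  linarith

/-- **The joint limit law for the quadratic twists.** -/
theorem exists_law_q {a : Fin r → HeightOneSpectrum (𝓞 K) → ℂ} {M : ℝ} (hM : 0 ≤ M)
    (ha : ∀ k v, ‖a k v‖ ≤ M) :
    ∃ Z : (Nat.Primes → unitInterval) → Fin r → ℂ, Measurable Z ∧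
      Integrable (fun ω => ‖Z ω‖ ^ 2) pmu ∧
      (∀ Y : ℕ, 1 ≤ Y → ∀ k,
        Integrable (fun ω => ‖Z ω k - FY (a k) (qX (fun n ω => rqf ω n) 0 ω) 0 Y‖ ^ 2) pmu ∧
        ∫ ω, ‖Z ω k - FY (a k) (qX (fun n ω => rqf ω n) 0 ω) 0 Y‖ ^ 2 ∂pmu ≤
        dl ((Module.finrank ℚ K : ℝ) * M) Y) ∧
      ∀ (f : (Fin r → ℂ) → ℝ), Continuous f → ∀ D : ℝ, (∀ z, |f z| ≤ D * (1 + ‖z‖ ^ 2)) →
        ∀ η : ℝ, 0 < η →
        (∃ (X₀ : ℕ) (T₀ ε₀ : ℝ), 0 < ε₀ ∧ ∀ (x : ℕ) (ε : ℝ), X₀ ≤ x → 0 < ε → ε ≤ ε₀ →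
          T₀ ≤ x * ε ^ 2 →
          |((SF x).card : ℝ)⁻¹ * ∑ d ∈ SF x, f (FSV a (qg d 0) ε) - ∫ ω, f (Z ω) ∂pmu| ≤ η) ∧
        (∃ ε₀ : ℝ, 0 < ε₀ ∧ ∀ ε : ℝ, 0 < ε → ε ≤ ε₀ → ∀ (Ω : Type) [MeasurableSpace Ω]
          (μ : Measure Ω) [IsProbabilityMeasure μ] (X : ℕ → Ω → ℤ), Rad μ X →
          |∫ ω, f (FSV a (qX X 0 ω) ε) ∂μ - ∫ ω, f (Z ω) ∂pmu| ≤ η) := by
  classical
  set X₁ : ℕ → (Nat.Primes → unitInterval) → ℤ := fun n ω => rqf ω n with hX₁def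
  have hX : Rad pmu X₁ := model_q
  set g : (Nat.Primes → unitInterval) → ℕ → ℂ := fun ω => qX X₁ 0 ω with hg
  have hR : Rnd pmu g := rnd_rad hX
  set m : ℝ := (Module.finrank ℚ K : ℝ) * M with hm
  choose Z hZm hZ using fun k => exists_Zg hR hM (ha k)
  set ZV : (Nat.Primes → unitInterval) → Fin r → ℂ := fun ω k => Z k ω with hZV
  have hZVm : Measurable ZV := measurable_pi_iff.2 hZm
  have hmV : ∀ (Ω : Type) [MeasurableSpace Ω] (μ : Measure Ω) [IsProbabilityMeasure μ]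
      (X : ℕ → Ω → ℤ), Rad μ X → ∀ (ε : ℝ) (Y : ℕ), Measurable fun ω => FV a (qX X 0 ω) ε Y :=
    fun Ω _ μ _ X hX ε Y => measurable_pi_iff.2 fun k => meas_FYg (rnd_rad hX) (a k) ε Y
  have hmS : ∀ (Ω : Type) [MeasurableSpace Ω] (μ : Measure Ω) [IsProbabilityMeasure μ]
      (X : ℕ → Ω → ℤ), Rad μ X → ∀ (ε : ℝ), 0 < ε → Measurable fun ω => FSV a (qX X 0 ω) ε :=
    fun Ω _ μ _ X hX ε hε => measurable_pi_iff.2 fun k => meas_FSg (rnd_rad hX) (ha k) hε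
  have hZY : ∀ Y : ℕ, 1 ≤ Y → Integrable (fun ω => ‖ZV ω - FV a (g ω) 0 Y‖ ^ 2) pmu ∧
      ∫ ω, ‖ZV ω - FV a (g ω) 0 Y‖ ^ 2 ∂pmu ≤ r * dl m Y := fun Y hY =>
    vec_sq hZVm (hmV _ pmu X₁ hX 0 Y) (fun k => (hZ k Y hY).1) fun k => (hZ k Y hY).2
  have hZint : Integrable (fun ω => ‖ZV ω‖ ^ 2) pmu :=
    sq_integrable_of_close hZVm (fun ω => norm_FV hM ha (hR.pm ω) le_rfl 1)
      (hZY 1 le_rfl).1
  refine ⟨ZV, hZVm, hZint, fun Y hY k => hZ k Y hY, ?_⟩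
  intro f hf D hD η hη
  have hη4 : 0 < η / 4 := by positivity
  obtain ⟨δ₁, hδ₁, htr⟩ := transfer hf hD hη4
  have hdl : ∀ δ : ℝ, 0 < δ → ∀ᶠ Y : ℕ in atTop, (r : ℝ) * dl m Y ≤ δ := by
    intro δ hδ
    have h1 : Tendsto (fun Y : ℕ => (r : ℝ) * dl m Y) atTop (𝓝 (r * 0)) :=
      (tendsto_dl m).const_mul _
    rw [mul_zero] at h1
    filter_upwards [h1.eventually (gt_mem_nhds hδ)] with Y hY
    exact hY.le
  obtain ⟨Y₁, hY₁a, hY₁b, hY₁c⟩ := ((hdl δ₁ hδ₁).and ((small_q hM ha hδ₁).and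
    (eventually_ge_atTop 1))).exists
  obtain ⟨δ₂, hδ₂, htr⟩ := htr (bY K M Y₁)
  obtain ⟨Y₂, hY₂a, hY₂b, hY₂c⟩ := ((hdl δ₂ hδ₂).and ((small_q hM ha hδ₂).and
    (eventually_ge_atTop 1))).exists
  obtain ⟨x₁, T₁, hT₁⟩ := hY₁b
  obtain ⟨x₂, T₂, hT₂⟩ := hY₂b
  obtain ⟨ε₀, hε₀, hεF⟩ := eps_F hM ha Y₂ hf hη4
  obtain ⟨x₃, hx₃⟩ := Filter.eventually_atTop.1 (pat_cmp hM ha Y₂ hf hη4)
  -- the random series on the line
  have hline : |∫ ω, f (ZV ω) ∂pmu - ∫ ω, f (FV a (g ω) 0 Y₂) ∂pmu| ≤ η / 4 :=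
    htr _ pmu ZV (fun ω => FV a (g ω) 0 Y₁) (fun ω => FV a (g ω) 0 Y₂) hZVm
      (hmV _ pmu X₁ hX 0 Y₂) (fun ω => norm_FV hM ha (hR.pm ω) le_rfl Y₁)
      ⟨bY K M Y₂, fun ω => norm_FV hM ha (hR.pm ω) le_rfl Y₂⟩ (hZY Y₁ hY₁c).1
      (hZY Y₂ hY₂c).1 ((hZY Y₁ hY₁c).2.trans hY₁a) ((hZY Y₂ hY₂c).2.trans hY₂a)
  have hsm : ∀ ε : ℝ, 0 ≤ ε → ε ≤ ε₀ → |∫ ω, f (FV a (g ω) ε Y₂) ∂pmu -
      ∫ ω, f (FV a (g ω) 0 Y₂) ∂pmu| ≤ η / 4 := by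
    intro ε h0 h1
    have hint : ∀ ε' : ℝ, 0 ≤ ε' → Integrable (fun ω => f (FV a (g ω) ε' Y₂)) pmu := by
      intro ε' h2
      apply integrable_growth hf hD (hmV _ pmu X₁ hX ε' Y₂)
      refine Integrable.of_bound ((hmV _ pmu X₁ hX ε' Y₂).norm.pow_const 2).aestronglyMeasurable
        (bY K M Y₂ ^ 2) (Eventually.of_forall fun ω => ?_)
      rw [norm_pow, norm_norm]
      exact pow_le_pow_left₀ (norm_nonneg _) (norm_FV hM ha (hR.pm ω) h2 Y₂) 2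
    rw [← integral_sub (hint ε h0) (hint 0 le_rfl)]
    have h2 := norm_integral_le_of_norm_le_const (μ := pmu)
      (f := fun ω => f (FV a (g ω) ε Y₂) - f (FV a (g ω) 0 Y₂)) (C := η / 4)
      (Eventually.of_forall fun ω => hεF ε h0 h1 _ (hR.pm ω))
    simpa using h2
  refine ⟨⟨max (max x₁ x₂) x₃, max T₁ T₂, min ε₀ (1 / 2), by positivity, ?_⟩, ⟨min ε₀ (1 / 2),
    by positivity, ?_⟩⟩
  · intro x ε hx hε0 hε1 hT
    have hεa : ε ≤ ε₀ := hε1.trans (min_le_left _ _)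
    have hεb : ε ≤ 1 / 2 := hε1.trans (min_le_right _ _)
    obtain ⟨hc, a2⟩ := hT₁ x ε (((le_max_left _ _).trans (le_max_left _ _)).trans hx) hε0 hεb
      ((le_max_left _ _).trans hT)
    obtain ⟨-, b2⟩ := hT₂ x ε (((le_max_right _ _).trans (le_max_left _ _)).trans hx) hε0 hεb
      ((le_max_right _ _).trans hT)
    have hprob := prob_muF hc
    have h1 := hx₃ x ((le_max_right _ _).trans hx) ε hε0.le _ pmu X₁ hX
    have h2 : |∫ d, f (FSV a (qg d 0) ε) ∂(muF x) - ∫ d, f (FV a (qg d 0) ε Y₂) ∂(muF x)| ≤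
        η / 4 :=
      htr _ (muF x) (fun d => FSV a (qg d 0) ε) (fun d => FV a (qg d 0) ε Y₁)
        (fun d => FV a (qg d 0) ε Y₂) (measurable_of_countable _) (measurable_of_countable _)
        (fun d => norm_FV hM ha (pm_qg d 0) hε0.le Y₁)
        ⟨bY K M Y₂, fun d => norm_FV hM ha (pm_qg d 0) hε0.le Y₂⟩ (integrable_muF hc _)
        (integrable_muF hc _) a2 b2
    rw [integral_muF, integral_muF] at h2
    have h3 := hsm ε hε0.le hεa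
    rw [abs_sub_comm] at hline
    have e1 := abs_sub_le (((SF x).card : ℝ)⁻¹ * ∑ d ∈ SF x, f (FSV a (qg d 0) ε))
      (((SF x).card : ℝ)⁻¹ * ∑ d ∈ SF x, f (FV a (qg d 0) ε Y₂)) (∫ ω, f (ZV ω) ∂pmu)
    have e2 := abs_sub_le (((SF x).card : ℝ)⁻¹ * ∑ d ∈ SF x, f (FV a (qg d 0) ε Y₂))
      (∫ ω, f (FV a (g ω) ε Y₂) ∂pmu) (∫ ω, f (ZV ω) ∂pmu)
    have e3 := abs_sub_le (∫ ω, f (FV a (g ω) ε Y₂) ∂pmu)
      (∫ ω, f (FV a (g ω) 0 Y₂) ∂pmu) (∫ ω, f (ZV ω) ∂pmu)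
    linarith
  · intro ε hε0 hε1 Ω _ μ _ X hX'
    have hεa : ε ≤ ε₀ := hε1.trans (min_le_left _ _)
    have hR' : Rnd μ fun ω => qX X 0 ω := rnd_rad hX'
    obtain ⟨a1, a2⟩ := tail_g_vec hR' hε0 hM ha hY₁c
    obtain ⟨b1, b2⟩ := tail_g_vec hR' hε0 hM ha hY₂c
    have h2 : |∫ ω, f (FSV a (qX X 0 ω) ε) ∂μ - ∫ ω, f (FV a (qX X 0 ω) ε Y₂) ∂μ| ≤ η / 4 :=
      htr _ μ (fun ω => FSV a (qX X 0 ω) ε) (fun ω => FV a (qX X 0 ω) ε Y₁)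
        (fun ω => FV a (qX X 0 ω) ε Y₂) (hmS _ μ X hX' ε hε0) (hmV _ μ X hX' ε Y₂)
        (fun ω => norm_FV hM ha (hR'.pm ω) hε0.le Y₁)
        ⟨bY K M Y₂, fun ω => norm_FV hM ha (hR'.pm ω) hε0.le Y₂⟩ a1 b1
        (a2.trans hY₁a) (b2.trans hY₂a)
    have h3 := hsm ε hε0.le hεa
    have h4 : ∫ ω, f (FV a (qX X 0 ω) ε Y₂) ∂μ = ∫ ω, f (FV a (g ω) ε Y₂) ∂pmu := by
      simp_rw [hg]
      simp_rw [FV_qX hX', FV_qX hX]
      rw [hX'.integral_pat Y₂ (fun σ => f (FU a (exs Y₂ σ 0) ε Y₂)),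
        hX.integral_pat Y₂ (fun σ => f (FU a (exs Y₂ σ 0) ε Y₂))]
    rw [h4] at h2
    rw [abs_sub_comm] at hline
    have e1 := abs_sub_le (∫ ω, f (FSV a (qX X 0 ω) ε) ∂μ)
      (∫ ω, f (FV a (g ω) ε Y₂) ∂pmu) (∫ ω, f (ZV ω) ∂pmu)
    have e3 := abs_sub_le (∫ ω, f (FV a (g ω) ε Y₂) ∂pmu)
      (∫ ω, f (FV a (g ω) 0 Y₂) ∂pmu) (∫ ω, f (ZV ω) ∂pmu)
    linarith

end

end Pool.Agent.H439.FQ
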