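import Pool.Agent.H439.FQ.Thm
import Pool.Agent.H439.FA.Second

/-!
# The mean value and the variance of the limit law
-/

set_option autoImplicit false
set_option linter.unusedSectionVars false
set_option linter.unusedVariables false

namespace Pool.Agent.H439.FQ

open Finset Complex ComplexConjugate Filter Topology MeasureTheory ProbabilityTheory NumberField
  IsDedekindDomain Pool.Agent.TH339.MP Pool.Agent.H439.LS Pool.Agent.H439.LL Pool.Agent.H439.FA
  Pool.Agent.H439.QD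

section
variable {Ω : Type} [MeasurableSpace Ω] {μ : Measure Ω} [IsProbabilityMeasure μ]

/-- the variance is at most the second moment -/
lemma var_le {V : Ω → ℂ} (hV : Integrable V μ) (hV2 : Integrable (fun ω => ‖V ω‖ ^ 2) μ) :
    Integrable (fun ω => ‖V ω - ∫ ω', V ω' ∂μ‖ ^ 2) μ ∧
      ∫ ω, ‖V ω - ∫ ω', V ω' ∂μ‖ ^ 2 ∂μ = ∫ ω, ‖V ω‖ ^ 2 ∂μ - ‖∫ ω', V ω' ∂μ‖ ^ 2 := by
  set c : ℂ := ∫ ω', V ω' ∂μ with hc
  have h1 : ∀ ω, ‖V ω - c‖ ^ 2 = ‖V ω‖ ^ 2 - 2 * (conj c * V ω).re + ‖c‖ ^ 2 := by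
    intro ω
    rw [← Complex.normSq_eq_norm_sq, ← Complex.normSq_eq_norm_sq, ← Complex.normSq_eq_norm_sq,
      Complex.normSq_sub]
    have : (V ω * conj c).re = (conj c * V ω).re := by rw [mul_comm]
    rw [this]
    ring
  have h2 : Integrable (fun ω => (conj c * V ω).re) μ := (hV.const_mul (conj c)).re
  have h3 : ∫ ω, (conj c * V ω).re ∂μ = ‖c‖ ^ 2 := by
    have h4 : ∫ ω, (conj c * V ω).re ∂μ = (∫ ω, conj c * V ω ∂μ).re := integral_re (hV.const_mul _)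
    rw [h4, integral_const_mul, ← hc, conj_mul']
    exact_mod_cast Complex.ofReal_re _
  have hi : Integrable (fun ω => ‖V ω‖ ^ 2 - 2 * (conj c * V ω).re + ‖c‖ ^ 2) μ :=
    (hV2.sub (h2.const_mul 2)).add (integrable_const _)
  simp_rw [h1]
  refine ⟨hi, ?_⟩
  have hi2 : Integrable (fun ω => ‖V ω‖ ^ 2 - 2 * (conj c * V ω).re) μ := hV2.sub (h2.const_mul 2)
  rw [integral_add hi2 (integrable_const _), integral_sub hV2 (h2.const_mul 2),
    integral_const_mul, h3, integral_const]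
  simp
  ring

variable {X : ℕ → Ω → ℤ}

/-- integration of a function of the value at a prime -/
lemma Rad_integral (h : Rad μ X) {p : ℕ} (hp : p.Prime) (F : ℤ → ℂ) :
    ∫ ω, F (X p ω) ∂μ = ((1 - rho p : ℝ) : ℂ) * F 0 + ((rho p / 2 : ℝ) : ℂ) * F 1 +
      ((rho p / 2 : ℝ) : ℂ) * F (-1) := by
  have hm : ∀ s : ℤ, MeasurableSet {ω | X p ω = s} := fun s =>
    h.meas ⟨p, hp⟩ (measurableSet_singleton s)
  have h1 : ∀ ω, F (X p ω) = (Set.indicator {ω | X p ω = 0} (fun _ => F 0) ω +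
      Set.indicator {ω | X p ω = 1} (fun _ => F 1) ω) +
      Set.indicator {ω | X p ω = -1} (fun _ => F (-1)) ω := by
    intro ω
    rcases h.vals ⟨p, hp⟩ ω with h1 | h1 | h1 <;> change X p ω = _ at h1 <;>
      simp [Set.indicator, h1]
  simp_rw [h1]
  have i0 := (integrable_const (μ := μ) (F 0)).indicator (hm 0)
  have i1 := (integrable_const (μ := μ) (F 1)).indicator (hm 1)
  have i2 := (integrable_const (μ := μ) (F (-1))).indicator (hm (-1))
  have i3 : Integrable (fun ω => Set.indicator {ω | X p ω = 0} (fun _ => F 0) ω +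
      Set.indicator {ω | X p ω = 1} (fun _ => F 1) ω) μ := i0.add i1
  rw [integral_add i3 i2, integral_add i0 i1, integral_indicator (hm 0), integral_indicator (hm 1),
    integral_indicator (hm (-1)), setIntegral_const, setIntegral_const, setIntegral_const]
  have h2 := h.law_one ⟨p, hp⟩
  have h3 := h.law_neg ⟨p, hp⟩
  have h4 := h.law_zero ⟨p, hp⟩
  change μ.real {ω | X p ω = 1} = _ at h2
  change μ.real {ω | X p ω = -1} = _ at h3
  change μ.real {ω | X p ω = 0} = _ at h4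
  rw [h2, h3, h4]
  simp only [Complex.real_smul]

/-- the centered function of the value at a prime -/
noncomputable def cU (A B : ℂ) (p : ℕ) (x : ℤ) : ℂ := A * (x : ℂ) + B * ((x : ℂ) ^ 2 - (rho p : ℂ))

lemma cU_mean (h : Rad μ X) {p : ℕ} (hp : p.Prime) (A B : ℂ) :
    ∫ ω, cU A B p (X p ω) ∂μ = 0 := by
  rw [Rad_integral h hp]
  unfold cU
  push_cast
  ring

lemma cU_sq (h : Rad μ X) {p : ℕ} (hp : p.Prime) (A B : ℂ) :
    ∫ ω, ‖cU A B p (X p ω)‖ ^ 2 ∂μ = rho p * ‖A‖ ^ 2 + rho p * (1 - rho p) * ‖B‖ ^ 2 := by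
  have h1 : ((∫ ω, ‖cU A B p (X p ω)‖ ^ 2 ∂μ : ℝ) : ℂ) =
      ((rho p * ‖A‖ ^ 2 + rho p * (1 - rho p) * ‖B‖ ^ 2 : ℝ) : ℂ) := by
    rw [← integral_complex_ofReal]
    have h2 : ∀ ω, ((‖cU A B p (X p ω)‖ ^ 2 : ℝ) : ℂ) =
        (fun x : ℤ => conj (cU A B p x) * cU A B p x) (X p ω) := by
      intro ω
      push_cast
      rw [← conj_mul']
    simp_rw [h2]
    rw [Rad_integral h hp (fun x : ℤ => conj (cU A B p x) * cU A B p x)]
    unfold cU
    push_cast
    rw [← conj_mul', ← conj_mul']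
    simp only [map_add, map_mul, map_sub, map_pow, map_one, map_zero, map_neg, Complex.conj_ofReal]
    ring
  exact_mod_cast h1

lemma measurable_cU (h : Rad μ X) {p : ℕ} (hp : p.Prime) (A B : ℂ) :
    Measurable fun ω => cU A B p (X p ω) :=
  (measurable_of_countable (cU A B p)).comp (h.meas ⟨p, hp⟩)

lemma rho_nonneg (p : ℕ) : 0 ≤ rho p := by
  unfold rho
  split_ifs <;> positivity

lemma rho_le (p : ℕ) : rho p ≤ 1 := by
  unfold rho
  split_ifs
  · norm_num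
  · rw [div_le_one (by positivity)]
    linarith

lemma norm_cU (h : Rad μ X) {p : ℕ} (hp : p.Prime) (A B : ℂ) (ω : Ω) :
    ‖cU A B p (X p ω)‖ ≤ ‖A‖ + ‖B‖ * 2 := by
  have h1 := h.norm_le hp ω
  unfold cU
  refine (norm_add_le _ _).trans ?_
  rw [norm_mul, norm_mul]
  apply add_le_add
  · exact mul_le_of_le_one_right (norm_nonneg _) h1
  · apply mul_le_mul_of_nonneg_left _ (norm_nonneg _)
    refine (norm_sub_le _ _).trans ?_
    rw [norm_pow, Complex.norm_real, Real.norm_of_nonneg (rho_nonneg p)]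
    have h2 := pow_le_one₀ (n := 2) (norm_nonneg _) h1
    linarith [rho_le p]

/-- the variance of a finite sum -/
lemma ms_cU (h : Rad μ X) (T : Finset ℕ) (hT : ∀ p ∈ T, p.Prime) (A B : ℕ → ℂ) :
    ∫ ω, ‖∑ p ∈ T, cU (A p) (B p) p (X p ω)‖ ^ 2 ∂μ =
      ∑ p ∈ T, (rho p * ‖A p‖ ^ 2 + rho p * (1 - rho p) * ‖B p‖ ^ 2) := by
  classical
  have h2 : ((∫ ω, ‖∑ p ∈ T, cU (A p) (B p) p (X p ω)‖ ^ 2 ∂μ : ℝ) : ℂ) =
      ∑ p ∈ T, ∑ r ∈ T, ∫ ω, conj (cU (A p) (B p) p (X p ω)) * cU (A r) (B r) r (X r ω) ∂μ := by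
    rw [← integral_complex_ofReal]
    have h3 : ∀ ω, ((‖∑ p ∈ T, cU (A p) (B p) p (X p ω)‖ ^ 2 : ℝ) : ℂ) =
        ∑ p ∈ T, ∑ r ∈ T, conj (cU (A p) (B p) p (X p ω)) * cU (A r) (B r) r (X r ω) := by
      intro ω
      push_cast
      rw [← conj_mul', map_sum, sum_mul_sum]
    simp_rw [h3]
    have hint : ∀ p ∈ T, ∀ r ∈ T, Integrable (fun ω => conj (cU (A p) (B p) p (X p ω)) *
        cU (A r) (B r) r (X r ω)) μ := by
      intro p hp r hr
      refine Integrable.of_bound ?_ ((‖A p‖ + ‖B p‖ * 2) * (‖A r‖ + ‖B r‖ * 2)) ?_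
      · exact ((Complex.continuous_conj.measurable.comp (measurable_cU h (hT p hp) _ _)).mul
          (measurable_cU h (hT r hr) _ _)).aestronglyMeasurable
      · exact Eventually.of_forall fun ω => by
          rw [norm_mul, Complex.norm_conj]
          exact mul_le_mul (norm_cU h (hT p hp) _ _ ω) (norm_cU h (hT r hr) _ _ ω) (norm_nonneg _)
            (by positivity)
    rw [integral_finsetSum _ fun p hp => integrable_finsetSum _ fun r hr => hint p hp r hr]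
    apply sum_congr rfl
    intro p hp
    rw [integral_finsetSum _ fun r hr => hint p hp r hr]
  have h4 : ∀ p ∈ T, ∑ r ∈ T, ∫ ω, conj (cU (A p) (B p) p (X p ω)) *
      cU (A r) (B r) r (X r ω) ∂μ =
      ((rho p * ‖A p‖ ^ 2 + rho p * (1 - rho p) * ‖B p‖ ^ 2 : ℝ) : ℂ) := by
    intro p hp
    rw [sum_eq_single p]
    · rw [← cU_sq h (hT p hp), ← integral_complex_ofReal]
      congr 1
      funext ω
      push_cast
      rw [← conj_mul']
    · intro r hr hne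
      have hne' : (⟨p, hT p hp⟩ : Nat.Primes) ≠ ⟨r, hT r hr⟩ := fun h0 =>
        hne (congrArg Subtype.val h0).symm
      have h5 := (h.indep.indepFun hne').integral_fun_comp_mul_comp
        (f := fun s : ℤ => conj (cU (A p) (B p) p s)) (g := fun s : ℤ => cU (A r) (B r) r s)
        (h.meas ⟨p, hT p hp⟩).aemeasurable (h.meas ⟨r, hT r hr⟩).aemeasurable
        (measurable_of_countable _).aestronglyMeasurable
        (measurable_of_countable _).aestronglyMeasurable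
      have h6 := cU_mean h (hT r hr) (A r) (B r)
      have h7 : ∫ ω, conj (cU (A p) (B p) p (X p ω)) * cU (A r) (B r) r (X r ω) ∂μ =
          (∫ ω, conj (cU (A p) (B p) p (X p ω)) ∂μ) * ∫ ω, cU (A r) (B r) r (X r ω) ∂μ := h5
      rw [h7, h6, mul_zero]
    · intro h0
      exact absurd hp h0
  rw [sum_congr rfl h4] at h2
  exact_mod_cast h2

end

section
variable {K : Type} [Field K] [NumberField K]

/-- the coefficient of the odd part at `p` -/
noncomputable def AP (a : HeightOneSpectrum (𝓞 K) → ℂ) (p : ℕ) : ℂ :=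
  if h : p.Prime then ∑ v ∈ (Sp ⟨p, h⟩).filter (fun v => ¬ Even (dg v)), a v * (FA.wt 0 (nm v) : ℂ)
  else 0

/-- the coefficient of the even part at `p` -/
noncomputable def BP (a : HeightOneSpectrum (𝓞 K) → ℂ) (p : ℕ) : ℂ :=
  if h : p.Prime then ∑ v ∈ (Sp ⟨p, h⟩).filter (fun v => Even (dg v)), a v * (FA.wt 0 (nm v) : ℂ)
  else 0

open Classical in
/-- the places over the primes up to `P` -/
noncomputable def TP (K : Type) [Field K] [NumberField K] (P : ℕ) :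
    Finset (HeightOneSpectrum (𝓞 K)) :=
  (DY P).attach.biUnion fun i => Sp ⟨i, prime_DY i⟩

lemma mem_TP {P : ℕ} {v : HeightOneSpectrum (𝓞 K)} :
    v ∈ TP K P ↔ ((pr v : Nat.Primes) : ℕ) ∈ DY P := by
  classical
  unfold TP
  rw [mem_biUnion]
  constructor
  · rintro ⟨i, _, hi⟩
    rw [mem_Sp] at hi
    rw [hi]
    exact i.2
  · intro h
    refine ⟨⟨_, h⟩, mem_attach _ _, ?_⟩
    rw [mem_Sp]
    exact Subtype.ext rfl

section
variable {Ω : Type} [MeasurableSpace Ω] {μ : Measure Ω} [IsProbabilityMeasure μ] {X : ℕ → Ω → ℤ}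

lemma sum_TP (h : Rad μ X) (a : HeightOneSpectrum (𝓞 K) → ℂ) (P : ℕ) (ω : Ω) :
    ∑ v ∈ TP K P, ft a (qX X 0 ω) 0 v =
      ∑ p ∈ DY P, cU (AP a p) (BP a p) p (X p ω) + ∑ p ∈ DY P, (rho p : ℂ) * BP a p := by
  classical
  rw [← sum_add_distrib, ← sum_fiberwise_of_maps_to (s := TP K P) (t := DY P)
    (g := fun v => ((pr v : Nat.Primes) : ℕ)) (fun v hv => mem_TP.1 hv)]
  apply sum_congr rfl
  intro p hp
  have hpp : p.Prime := (mem_filter.1 hp).2
  have h1 : (TP K P).filter (fun v => ((pr v : Nat.Primes) : ℕ) = p) = Sp ⟨p, hpp⟩ := by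
    ext v
    rw [mem_filter, mem_TP, mem_Sp]
    constructor
    · rintro ⟨_, h2⟩
      exact Subtype.ext h2
    · intro h2
      rw [h2]
      exact ⟨hp, rfl⟩
  rw [h1, ← sum_filter_add_sum_filter_not (Sp ⟨p, hpp⟩) (fun v => Even (dg v))]
  have hX : X p ω = 0 ∨ X p ω = 1 ∨ X p ω = -1 := h.vals ⟨p, hpp⟩ ω
  have hg : ∀ v ∈ Sp (K := K) ⟨p, hpp⟩, qX X 0 ω (nm v) = ((X p ω : ℤ) : ℂ) ^ dg v := by
    intro v hv
    rw [mem_Sp] at hv
    rw [nm_eq, (pm_qX h 0 ω).pow _ (pr v).2, hv]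
    unfold qX ph
    simp
  have he : ∑ v ∈ (Sp ⟨p, hpp⟩).filter (fun v => Even (dg v)), ft a (qX X 0 ω) 0 v =
      BP a p * ((X p ω : ℤ) : ℂ) ^ 2 := by
    unfold BP
    rw [dif_pos hpp, sum_mul]
    apply sum_congr rfl
    intro v hv
    rw [mem_filter] at hv
    unfold ft
    rw [hg v hv.1]
    have h2 : ((X p ω : ℤ) : ℂ) ^ dg v = ((X p ω : ℤ) : ℂ) ^ 2 := by
      obtain ⟨k, hk⟩ := hv.2
      have hk0 : 0 < k := by have := dg_pos v; omega
      rw [hk, ← two_mul, pow_mul]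
      rcases hX with h3 | h3 | h3 <;> rw [h3]
      · simp [hk0.ne']
      · simp
      · simp
    rw [h2]
    ring
  have ho : ∑ v ∈ (Sp ⟨p, hpp⟩).filter (fun v => ¬ Even (dg v)), ft a (qX X 0 ω) 0 v =
      AP a p * ((X p ω : ℤ) : ℂ) := by
    unfold AP
    rw [dif_pos hpp, sum_mul]
    apply sum_congr rfl
    intro v hv
    rw [mem_filter] at hv
    unfold ft
    rw [hg v hv.1]
    have h2 : ((X p ω : ℤ) : ℂ) ^ dg v = ((X p ω : ℤ) : ℂ) := by
      have ho := Nat.not_even_iff_odd.1 hv.2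
      rcases hX with h3 | h3 | h3 <;> rw [h3]
      · have := dg_pos v
        simp [this.ne']
      · simp
      · push_cast
        exact ho.neg_one_pow
    rw [h2]
    ring
  rw [he, ho]
  unfold cU
  ring

end

lemma dl_anti (m : ℝ) {P Y : ℕ} (hP : 1 ≤ P) (h : P ≤ Y) : dl m Y ≤ dl m P := by
  unfold dl
  have hP0 : (0 : ℝ) < P := by exact_mod_cast hP
  have hPY : (P : ℝ) ≤ Y := by exact_mod_cast h
  apply mul_le_mul_of_nonneg_left _ (by positivity)
  apply add_le_add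
  · apply div_le_div_of_nonneg_left (by norm_num) (Real.sqrt_pos.2 hP0)
    exact Real.sqrt_le_sqrt hPY
  · apply mul_le_mul_of_nonneg_left _ (by positivity)
    exact Real.rpow_le_rpow_of_nonpos hP0 hPY (by norm_num)

/-- **The mean and the variance.** -/
theorem mean_var {a : HeightOneSpectrum (𝓞 K) → ℂ} {M : ℝ} (hM : 0 ≤ M) (ha : ∀ v, ‖a v‖ ≤ M)
    {Ω : Type} [MeasurableSpace Ω] {μ : Measure Ω} [IsProbabilityMeasure μ] {X : ℕ → Ω → ℤ}
    (hX : Rad μ X) {Z : Ω → ℂ} (hZm : Measurable Z) (hZ2 : Integrable (fun ω => ‖Z ω‖ ^ 2) μ)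
    (hZ : ∀ Y : ℕ, 1 ≤ Y → Integrable (fun ω => ‖Z ω - FY a (qX X 0 ω) 0 Y‖ ^ 2) μ ∧
      ∫ ω, ‖Z ω - FY a (qX X 0 ω) 0 Y‖ ^ 2 ∂μ ≤ dl ((Module.finrank ℚ K : ℝ) * M) Y) :
    Tendsto (fun P : ℕ => ∑ p ∈ DY P, (rho p : ℂ) * BP a p) atTop (𝓝 (∫ ω, Z ω ∂μ)) ∧
    Tendsto (fun P : ℕ => ∑ p ∈ DY P, (rho p * ‖AP a p‖ ^ 2 + rho p * (1 - rho p) * ‖BP a p‖ ^ 2))
      atTop (𝓝 (∫ ω, ‖Z ω - ∫ ω', Z ω' ∂μ‖ ^ 2 ∂μ)) := by
  classical
  set m : ℝ := (Module.finrank ℚ K : ℝ) * M with hm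
  have hR : Rnd μ fun ω => qX X 0 ω := rnd_rad hX
  set W : ℕ → Ω → ℂ := fun P ω => ∑ v ∈ TP K P, ft a (qX X 0 ω) 0 v with hW
  have hWm : ∀ P, Measurable (W P) := fun P =>
    Finset.measurable_sum _ fun v _ => meas_ft hR a 0 v
  have hWb : ∀ P ω, ‖W P ω‖ ≤ ∑ v ∈ TP K P, M * FA.wt 0 (nm v) := fun P ω =>
    norm_sum_le_of_le _ fun v _ => norm_ft ha (hR.pm ω) 0 v
  have hWi : ∀ P, Integrable (W P) μ := fun P =>
    Integrable.of_bound (hWm P).aestronglyMeasurable _ (Eventually.of_forall (hWb P))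
  have hW2 : ∀ P, Integrable (fun ω => ‖W P ω‖ ^ 2) μ := by
    intro P
    refine Integrable.of_bound ((hWm P).norm.pow_const 2).aestronglyMeasurable
      ((∑ v ∈ TP K P, M * FA.wt 0 (nm v)) ^ 2) (Eventually.of_forall fun ω => ?_)
    rw [norm_pow, norm_norm]
    exact pow_le_pow_left₀ (norm_nonneg _) (hWb P ω) 2
  have hZi : Integrable Z μ := by
    refine Integrable.mono' ((integrable_const (1 : ℝ)).add hZ2) hZm.aestronglyMeasurable
      (Eventually.of_forall fun ω => ?_)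
    change ‖Z ω‖ ≤ 1 + ‖Z ω‖ ^ 2
    nlinarith [sq_nonneg (‖Z ω‖ - 1), norm_nonneg (Z ω)]
  -- the approximation
  have happ : ∀ P : ℕ, 1 ≤ P → Integrable (fun ω => ‖Z ω - W P ω‖ ^ 2) μ ∧
      ∫ ω, ‖Z ω - W P ω‖ ^ 2 ∂μ ≤ 4 * dl m P := by
    intro P hP
    set Y : ℕ := max P ((TP K P).sup nm) with hY
    have hPY : P ≤ Y := le_max_left _ _
    obtain ⟨h1, h2⟩ := hZ Y (hP.trans hPY)
    have hsub : TP K P ⊆ Vy K (Y : ℝ) := by
      intro v hv
      rw [mem_Vy]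
      have : nm v ≤ Y := (Finset.le_sup (f := nm) hv).trans (le_max_right _ _)
      exact_mod_cast this
    have hdiff : ∀ ω, FY a (qX X 0 ω) 0 Y - W P ω =
        ∑ v ∈ Vy K (Y : ℝ) \ TP K P, ft a (qX X 0 ω) 0 v := by
      intro ω
      have := sum_sdiff (f := fun v => ft a (qX X 0 ω) 0 v) hsub
      change (∑ v ∈ Vy K (Y : ℝ), ft a (qX X 0 ω) 0 v) - ∑ v ∈ TP K P, ft a (qX X 0 ω) 0 v = _
      rw [← this]
      ring
    have hlt : ∀ v ∈ Vy K (Y : ℝ) \ TP K P, P < nm v := by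
      intro v hv
      have h3 := (Finset.mem_sdiff.1 hv).2
      rw [mem_TP] at h3
      have h4 : P < ((pr v : Nat.Primes) : ℕ) := by
        by_contra hcon
        apply h3
        unfold DY
        rw [mem_filter, mem_range]
        exact ⟨by omega, (pr v).2⟩
      refine lt_of_lt_of_le h4 ?_
      rw [nm_eq]
      exact Nat.le_self_pow (dg_pos v).ne' _
    have h3 := fin_g hR (le_refl (0 : ℝ)) hM ha hP _ hlt
    rw [← hm] at h3
    simp_rw [← hdiff] at h3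
    have hFm := meas_FYg hR a 0 Y
    have hFi : Integrable (fun ω => ‖FY a (qX X 0 ω) 0 Y - W P ω‖ ^ 2) μ := by
      refine Integrable.of_bound ((hFm.sub (hWm P)).norm.pow_const 2).aestronglyMeasurable
        ((bY K M Y + ∑ v ∈ TP K P, M * FA.wt 0 (nm v)) ^ 2) (Eventually.of_forall fun ω => ?_)
      rw [norm_pow, norm_norm]
      apply pow_le_pow_left₀ (norm_nonneg _)
      exact (norm_sub_le _ _).trans (add_le_add (norm_FY hM ha (hR.pm ω) le_rfl Y) (hWb P ω))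
    have hpt : ∀ ω, ‖Z ω - W P ω‖ ^ 2 ≤ 2 * ‖Z ω - FY a (qX X 0 ω) 0 Y‖ ^ 2 +
        2 * ‖FY a (qX X 0 ω) 0 Y - W P ω‖ ^ 2 := by
      intro ω
      have e : Z ω - W P ω = (Z ω - FY a (qX X 0 ω) 0 Y) + (FY a (qX X 0 ω) 0 Y - W P ω) := by ring
      have h5 := norm_add_le (Z ω - FY a (qX X 0 ω) 0 Y) (FY a (qX X 0 ω) 0 Y - W P ω)
      rw [← e] at h5
      have h6 := pow_le_pow_left₀ (norm_nonneg _) h5 2
      nlinarith [sq_nonneg (‖Z ω - FY a (qX X 0 ω) 0 Y‖ - ‖FY a (qX X 0 ω) 0 Y - W P ω‖)]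
    have hi : Integrable (fun ω => 2 * ‖Z ω - FY a (qX X 0 ω) 0 Y‖ ^ 2 +
        2 * ‖FY a (qX X 0 ω) 0 Y - W P ω‖ ^ 2) μ := (h1.const_mul 2).add (hFi.const_mul 2)
    have hZW : Integrable (fun ω => ‖Z ω - W P ω‖ ^ 2) μ := by
      refine hi.mono' ((hZm.sub (hWm P)).norm.pow_const 2).aestronglyMeasurable
        (Eventually.of_forall fun ω => ?_)
      rw [norm_pow, norm_norm]
      exact hpt ω
    refine ⟨hZW, ?_⟩
    have h7 := integral_mono hZW hi hpt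
    rw [integral_add (h1.const_mul 2) (hFi.const_mul 2), integral_const_mul,
      integral_const_mul] at h7
    have h8 := dl_anti m hP hPY
    linarith
  have hdl := (tendsto_dl m).const_mul 4
  rw [mul_zero] at hdl
  -- the means
  have hmean : ∀ P, ∫ ω, W P ω ∂μ = ∑ p ∈ DY P, (rho p : ℂ) * BP a p := by
    intro P
    simp_rw [hW, sum_TP hX a P]
    have hi : ∀ p ∈ DY P, Integrable (fun ω => cU (AP a p) (BP a p) p (X p ω)) μ := by
      intro p hp
      have hpp : p.Prime := (mem_filter.1 hp).2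
      exact Integrable.of_bound (measurable_cU hX hpp _ _).aestronglyMeasurable _
        (Eventually.of_forall (norm_cU hX hpp _ _))
    have h0 : ∑ p ∈ DY P, ∫ ω, cU (AP a p) (BP a p) p (X p ω) ∂μ = 0 :=
      sum_eq_zero fun p hp => cU_mean hX (mem_filter.1 hp).2 _ _
    rw [integral_add (integrable_finsetSum _ hi) (integrable_const _), integral_finsetSum _ hi,
      h0, zero_add, integral_const]
    simp
  have hvar : ∀ P : ℕ, 1 ≤ P → Integrable (fun ω => ‖(Z ω - ∫ ω', Z ω' ∂μ) -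
      (W P ω - ∫ ω', W P ω' ∂μ)‖ ^ 2) μ ∧ ∫ ω, ‖(Z ω - ∫ ω', Z ω' ∂μ) -
      (W P ω - ∫ ω', W P ω' ∂μ)‖ ^ 2 ∂μ = ∫ ω, ‖Z ω - W P ω‖ ^ 2 ∂μ -
        ‖∫ ω, Z ω ∂μ - ∫ ω, W P ω ∂μ‖ ^ 2 := by
    intro P hP
    have h1 := var_le (μ := μ) (V := fun ω => Z ω - W P ω) (hZi.sub (hWi P)) (happ P hP).1
    rw [integral_sub hZi (hWi P)] at h1
    have e : ∀ ω, (Z ω - ∫ ω', Z ω' ∂μ) - (W P ω - ∫ ω', W P ω' ∂μ) =
        Z ω - W P ω - (∫ ω', Z ω' ∂μ - ∫ ω', W P ω' ∂μ) := fun ω => by ring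
    simp_rw [e]
    exact h1
  have hsq : ∀ P : ℕ, 1 ≤ P → ‖∫ ω, Z ω ∂μ - ∫ ω, W P ω ∂μ‖ ^ 2 ≤ 4 * dl m P := by
    intro P hP
    have h1 := (hvar P hP).2
    have h2 : 0 ≤ ∫ ω, ‖(Z ω - ∫ ω', Z ω' ∂μ) - (W P ω - ∫ ω', W P ω' ∂μ)‖ ^ 2 ∂μ :=
      integral_nonneg fun ω => by positivity
    have h3 := (happ P hP).2
    linarith
  constructor
  · simp_rw [← hmean]
    rw [tendsto_iff_norm_sub_tendsto_zero]
    have h1 : Tendsto (fun P : ℕ => Real.sqrt (4 * dl m P)) atTop (𝓝 0) := by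
      have := (Real.continuous_sqrt.tendsto 0).comp hdl
      rwa [Real.sqrt_zero] at this
    refine squeeze_zero' (Eventually.of_forall fun P => norm_nonneg _) ?_ h1
    filter_upwards [eventually_ge_atTop 1] with P hP
    rw [norm_sub_rev]
    exact Real.le_sqrt_of_sq_le (hsq P hP)
  · set c : ℂ := ∫ ω', Z ω' ∂μ with hc
    have hZc := (var_le hZi hZ2).1
    rw [← hc] at hZc
    have h1 := ms_limit (μ := μ) (Z := fun ω => Z ω - c)
      (W := fun P ω => W P ω - ∫ ω', W P ω' ∂μ) hdl hZc (fun P => (var_le (hWi P) (hW2 P)).1) (by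
        filter_upwards [eventually_ge_atTop 1] with P hP
        obtain ⟨h2, h3⟩ := hvar P hP
        refine ⟨h2, ?_⟩
        rw [h3]
        have := (happ P hP).2
        have h4 : 0 ≤ ‖c - ∫ ω, W P ω ∂μ‖ ^ 2 := by positivity
        linarith)
    have h2 : ∀ P, ∫ ω, ‖W P ω - ∫ ω', W P ω' ∂μ‖ ^ 2 ∂μ =
        ∑ p ∈ DY P, (rho p * ‖AP a p‖ ^ 2 + rho p * (1 - rho p) * ‖BP a p‖ ^ 2) := by
      intro P
      rw [← ms_cU hX (DY P) (fun p hp => (mem_filter.1 hp).2), hmean]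
      congr 1
      funext ω
      simp only [hW]
      rw [sum_TP hX a P]
      congr 2
      ring
    simp_rw [h2] at h1
    exact h1

end

end Pool.Agent.H439.FQ
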